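import Mathlib
import Pool.Agent.TH7.DH.Fin

set_option autoImplicit false

/-!
# The limit of joint laws of planted patterns (degree two)
-/

namespace Pool.Agent.TH635.BV

open Finset Filter Topology Pool.Agent.TH7.DH

variable {J : Type}

open Classical in
/-- The average of a function of the set of all patterns whose planting lands in `S`. -/
noncomputable def LN (N : ℕ) (S : Finset (Finset (Fin 2 → Fin N))) (ι : Type) [Fintype ι]
    (Ψ : (((Fin 2 → ι) → Prop) → Prop) → ℝ) : ℝ :=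
  av (fun φ : ι ↪ Fin N => av (fun A => Ψ (fun P => ow φ P A ∈ S)))

lemma LN_bdd {N : ℕ} {S : Finset (Finset (Fin 2 → Fin N))} {ι : Type} [Fintype ι]
    {Ψ : (((Fin 2 → ι) → Prop) → Prop) → ℝ} {B : ℝ} (hB : 0 ≤ B) (h : ∀ U, |Ψ U| ≤ B) :
    |LN N S ι Ψ| ≤ B := by
  classical
  unfold LN
  exact av_abs_le hB fun φ => av_abs_le hB fun A => h _

lemma LN_equiv {N : ℕ} {S : Finset (Finset (Fin 2 → Fin N))} {ι ι' : Type} [Fintype ι] [Fintype ι']
    (e : ι ≃ ι') (P : J → (Fin 2 → ι') → Prop) (Φ : (J → Prop) → ℝ) :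
    LN N S ι (fun U => Φ (fun j => U (fun c => P j (fun t => e (c t)))))
      = LN N S ι' (fun U => Φ (fun j => U (P j))) := by
  classical
  unfold LN
  rw [← av_equiv (Equiv.embeddingCongr e (Equiv.refl (Fin N)))
    (fun φ : ι' ↪ Fin N => av (fun A => Φ (fun j => ow φ (P j) A ∈ S)))]
  congr 1
  funext φ
  congr 1
  funext A
  change Φ (fun j => ow φ (fun c => P j (fun t => e (c t))) A ∈ S) = _
  congr 1
  funext j
  rw [ow_equiv]
  rfl

/-- adding one index on whose cells the patterns agree changes little -/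
theorem LN_step {N : ℕ} (S : Finset (Finset (Fin 2 → Fin N))) {ι : Type} [Fintype ι]
    (hN : Fintype.card ι < N) (P : J → (Fin 2 → Option ι) → Prop) (j₀ : J)
    (hP : ∀ e, (∃ t, e t = none) → ∀ j, (P j e ↔ P j₀ e))
    (Φ : (J → Prop) → ℝ) (hΦ : ∀ v, |Φ v| ≤ 1) :
    |LN N S (Option ι) (fun U => Φ (fun j => U (P j)))
      - LN N S ι (fun U => Φ (fun j => U (fun e => P j (fun t => some (e t)))))|
      ≤ Real.sqrt (2 ^ (univ.filter (fun e : Fin 2 → Option ι => ∃ t, e t = none)).card /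
          ((N - Fintype.card ι : ℕ) : ℝ)) := by
  classical
  set M := (univ.filter (fun e : Fin 2 → Option ι => ∃ t, e t = none)).card with hM
  set m := N - Fintype.card ι with hm
  have hm0 : 0 < m := by omega
  have hm' : (0 : ℝ) < m := by exact_mod_cast hm0
  set E := (2 : ℝ) ^ Fintype.card (Fin 2 → Fin N) with hE
  have hE0 : 0 < E := by positivity
  have hcardA : ((Fintype.card (Finset (Fin 2 → Fin N)) : ℕ) : ℝ) = E := by
    rw [Fintype.card_finset]
    push_cast
    rfl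
  set F : (ι ↪ Fin N) → Finset (Fin 2 → Fin N) → ℝ := fun φ B =>
    Φ (fun j => ow φ (fun e => P j (fun t => some (e t))) B ∈ S) with hF
  have hF1 : ∀ φ B, |F φ B| ≤ 1 := fun φ B => hΦ _
  have e1 : LN N S (Option ι) (fun U => Φ (fun j => U (P j)))
      = av (fun x : (Σ φ : ι ↪ Fin N, ↥(Set.range φ)ᶜ) =>
          av (fun A => F x.1 ((A \ newCells (x.1.optionElim x.2 x.2.2))
            ∪ newPat (x.1.optionElim x.2 x.2.2) (P j₀)))) := by
    unfold LN
    rw [← av_equiv (Function.Embedding.optionEmbeddingEquiv ι (Fin N)).symm]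
    congr 1
    funext x
    congr 1
    funext A
    have hs : Function.Embedding.some.trans (x.1.optionElim x.2 x.2.2) = x.1 := by
      ext i
      rfl
    rw [hF]
    simp only
    congr 1
    funext j
    rw [ow_option]
    have h3 : (Function.Embedding.optionEmbeddingEquiv ι (Fin N)).symm x
        = x.1.optionElim x.2 x.2.2 := rfl
    rw [h3, hs, newPat_congr _ fun e he => hP e he j]
  have e2 : LN N S ι (fun U => Φ (fun j => U (fun e => P j (fun t => some (e t)))))
      = av (fun φ : ι ↪ Fin N => av (fun A => F φ A)) := rfl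
  rw [e1, e2]
  have hcard : ∀ φ : ι ↪ Fin N, Fintype.card ↥(Set.range φ)ᶜ = m := by
    intro φ
    rw [Fintype.card_compl_set, Fintype.card_fin, hm]
    congr 1
    exact Set.card_range_of_injective φ.injective
  refine av_sigma_close hm0 hcard _ _ (Real.sqrt_nonneg _) fun φ => ?_
  have hc := conc_abs (J := ↥(Set.range φ)ᶜ)
    (fun j => newCells (φ.optionElim j j.2) : ↥(Set.range φ)ᶜ → Finset (Fin 2 → Fin N))
    (fun j => newPat (φ.optionElim j j.2) (P j₀)) (fun j => newPat_sub _ _) (c := M)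
    (fun j => card_newCells _) ?_ (F φ) (hF1 φ)
  · rw [hcard φ] at hc
    have h4 : ∑ y : ↥(Set.range φ)ᶜ, av (fun A => F φ ((A \ newCells (φ.optionElim y y.2))
            ∪ newPat (φ.optionElim y y.2) (P j₀))) - m * av (fun A => F φ A)
        = (∑ y : ↥(Set.range φ)ᶜ, ∑ A, F φ ((A \ newCells (φ.optionElim y y.2))
            ∪ newPat (φ.optionElim y y.2) (P j₀)) - m * ∑ A, F φ A) / E := by
      unfold av
      rw [hcardA, ← sum_div]
      ring
    rw [h4, abs_div, abs_of_pos hE0, div_le_iff₀ hE0]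
    refine hc.trans (le_of_eq ?_)
    have h5 : (m : ℝ) * Real.sqrt (2 ^ M / m) = Real.sqrt (m * 2 ^ M) := by
      rw [← Real.sqrt_sq hm'.le, ← Real.sqrt_mul (by positivity)]
      rw [Real.sqrt_sq hm'.le]
      congr 1
      field_simp
    rw [h5]
    ring
  · intro j k hjk
    rw [Finset.disjoint_left]
    intro c hcj hck
    rw [mem_newCells] at hcj hck
    obtain ⟨e, ⟨t, ht⟩, he⟩ := hcj
    obtain ⟨e', -, he'⟩ := hck
    have h6 : c t = j := by
      rw [← he]
      simp only [ht]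
      rfl
    have h7 : c t = (φ.optionElim k k.2) (e' t) := by
      rw [← he']
    rw [h6] at h7
    rcases h8 : e' t with _ | x
    · rw [h8] at h7
      have h9 : (φ.optionElim (k : Fin N) k.2) none = k := rfl
      rw [h9] at h7
      exact hjk (Subtype.ext h7)
    · rw [h8] at h7
      have h9 : (φ.optionElim (k : Fin N) k.2) (some x) = φ x := rfl
      rw [h9] at h7
      exact j.2 ⟨x, h7.symm⟩

/-- families on all cubes and an ultrafilter -/
structure Fam where
  V : Ultrafilter ℕ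
  hV : (V : Filter ℕ) ≤ atTop
  S : (N : ℕ) → Finset (Finset (Fin 2 → Fin N))

variable (X : Fam)

/-- the limit functional -/
noncomputable def Fam.E (ι : Type) [Fintype ι] (Ψ : (((Fin 2 → ι) → Prop) → Prop) → ℝ) : ℝ :=
  ulim X.V (fun N => LN N (X.S N) ι Ψ)

lemma exB {ι : Type} [Fintype ι] (Ψ : (((Fin 2 → ι) → Prop) → Prop) → ℝ) :
    ∃ B : ℝ, 0 < B ∧ ∀ U, |Ψ U| ≤ B := by
  obtain ⟨B, hB⟩ := (Set.finite_range (fun U => |Ψ U|)).bddAbove
  refine ⟨max B 1, lt_of_lt_of_le one_pos (le_max_right _ _), fun U => ?_⟩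
  exact (hB ⟨U, rfl⟩).trans (le_max_left _ _)

lemma Fam.bdd (ι : Type) [Fintype ι] (Ψ : (((Fin 2 → ι) → Prop) → Prop) → ℝ) :
    Bdd (fun N => LN N (X.S N) ι Ψ) := by
  obtain ⟨B, hB0, hB⟩ := exB Ψ
  exact ⟨B, fun N => LN_bdd hB0.le hB⟩

lemma Fam.tendsto (ι : Type) [Fintype ι] (Ψ : (((Fin 2 → ι) → Prop) → Prop) → ℝ) :
    Tendsto (fun N => LN N (X.S N) ι Ψ) X.V (𝓝 (X.E ι Ψ)) :=
  ulim_tendsto (X.bdd ι Ψ)

lemma Fam.E_add {ι : Type} [Fintype ι] (Ψ Ψ' : (((Fin 2 → ι) → Prop) → Prop) → ℝ) :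
    X.E ι (fun U => Ψ U + Ψ' U) = X.E ι Ψ + X.E ι Ψ' := by
  classical
  refine ulim_eq ?_
  have := (X.tendsto ι Ψ).add (X.tendsto ι Ψ')
  refine this.congr fun N => ?_
  unfold LN
  rw [← av_add]
  congr 1
  funext φ
  rw [← av_add]

lemma Fam.E_smul {ι : Type} [Fintype ι] (t : ℝ) (Ψ : (((Fin 2 → ι) → Prop) → Prop) → ℝ) :
    X.E ι (fun U => t * Ψ U) = t * X.E ι Ψ := by
  classical
  refine ulim_eq ?_
  have := (X.tendsto ι Ψ).const_mul t
  refine this.congr fun N => ?_
  unfold LN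
  rw [← av_smul]
  congr 1
  funext φ
  rw [← av_smul]

lemma Fam.E_const {ι : Type} [Fintype ι] (t : ℝ) : X.E ι (fun _ => t) = t := by
  classical
  refine ulim_eq ?_
  refine tendsto_const_nhds.congr' ?_
  have h1 : ∀ᶠ N in (X.V : Filter ℕ), Fintype.card ι ≤ N :=
    X.hV (eventually_ge_atTop (Fintype.card ι))
  filter_upwards [h1] with N hN
  have : Nonempty (ι ↪ Fin N) := by
    refine Function.Embedding.nonempty_of_card_le ?_
    rwa [Fintype.card_fin]
  unfold LN
  simp only [av_const]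

lemma Fam.E_sum {ι I : Type} [Fintype ι] (s : Finset I)
    (Ψ : I → (((Fin 2 → ι) → Prop) → Prop) → ℝ) :
    X.E ι (fun U => ∑ i ∈ s, Ψ i U) = ∑ i ∈ s, X.E ι (Ψ i) := by
  classical
  induction s using Finset.induction_on with
  | empty => simpa using X.E_const (ι := ι) 0
  | insert i s hi ih =>
    rw [Finset.sum_insert hi, ← ih, ← X.E_add]
    congr 1
    funext U
    rw [Finset.sum_insert hi]

/-- sets of patterns that can occur -/
def Adm {ι : Type} (U : ((Fin 2 → ι) → Prop) → Prop) : Prop :=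
  ∀ (P : (Fin 2 → ι) → Prop) (γ : Finset ι), γ.Nonempty → (∀ c, (∀ t, c t ∈ γ) → ¬ P c) →
    ¬ (U P ∧ U (fun c => P c ∨ ∀ t, c t ∈ γ))

/-- no family contains a pair differing by a planted square -/
def Fam.Bad : Prop := ∀ (N : ℕ) (ι : Type) [Fintype ι] (φ : ι ↪ Fin N)
  (A : Finset (Fin 2 → Fin N)), Adm (fun P => ow φ P A ∈ X.S N)

lemma Fam.E_mono (hX : X.Bad) {ι : Type} [Fintype ι] {Ψ Ψ' : (((Fin 2 → ι) → Prop) → Prop) → ℝ}
    (h : ∀ U, Adm U → Ψ U ≤ Ψ' U) : X.E ι Ψ ≤ X.E ι Ψ' := by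
  classical
  refine le_of_tendsto_of_tendsto (X.tendsto ι Ψ) (X.tendsto ι Ψ') ?_
  refine Filter.Eventually.of_forall fun N => ?_
  unfold LN
  have h0 : 0 ≤ av (fun φ : ι ↪ Fin N => av (fun A => Ψ' (fun P => ow φ P A ∈ X.S N)))
      - av (fun φ : ι ↪ Fin N => av (fun A => Ψ (fun P => ow φ P A ∈ X.S N))) := by
    rw [av_sub]
    refine av_nonneg fun φ => ?_
    rw [av_sub]
    exact av_nonneg fun A => sub_nonneg.2 (h _ (hX N ι φ A))
  simp only
  linarith

lemma Fam.E_equiv {ι ι' : Type} [Fintype ι] [Fintype ι'] (e : ι ≃ ι')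
    (P : J → (Fin 2 → ι') → Prop) (Φ : (J → Prop) → ℝ) :
    X.E ι (fun U => Φ (fun j => U (fun c => P j (fun t => e (c t)))))
      = X.E ι' (fun U => Φ (fun j => U (P j))) := by
  unfold Fam.E
  congr 1
  funext N
  exact LN_equiv e P Φ

lemma Fam.E_step {ι : Type} [Fintype ι] (P : J → (Fin 2 → Option ι) → Prop) (j₀ : J)
    (hP : ∀ e, (∃ t, e t = none) → ∀ j, (P j e ↔ P j₀ e)) (Φ : (J → Prop) → ℝ)
    (hΦ : ∀ v, |Φ v| ≤ 1) :
    X.E (Option ι) (fun U => Φ (fun j => U (P j)))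
      = X.E ι (fun U => Φ (fun j => U (fun e => P j (fun t => some (e t))))) := by
  classical
  set M := (univ.filter (fun e : Fin 2 → Option ι => ∃ t, e t = none)).card with hM
  have h1 := (X.tendsto (Option ι) (fun U => Φ (fun j => U (P j)))).sub
    (X.tendsto ι (fun U => Φ (fun j => U (fun e => P j (fun t => some (e t))))))
  have h2 : Tendsto (fun N : ℕ => Real.sqrt (2 ^ M / ((N - Fintype.card ι : ℕ) : ℝ))) atTop
      (𝓝 0) := by
    have h3 : Tendsto (fun N : ℕ => ((N - Fintype.card ι : ℕ) : ℝ)) atTop atTop :=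
      tendsto_natCast_atTop_atTop.comp (tendsto_sub_atTop_nat _)
    have h4 : Tendsto (fun N : ℕ => (2 : ℝ) ^ M / ((N - Fintype.card ι : ℕ) : ℝ)) atTop (𝓝 0) :=
      h3.const_div_atTop _
    have h5 := (Real.continuous_sqrt.tendsto 0).comp h4
    rw [Real.sqrt_zero] at h5
    exact h5
  have h3 : Tendsto (fun N => LN N (X.S N) (Option ι) (fun U => Φ (fun j => U (P j)))
      - LN N (X.S N) ι (fun U => Φ (fun j => U (fun e => P j (fun t => some (e t)))))) X.V
        (𝓝 0) := by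
    refine squeeze_zero_norm' ?_ (h2.mono_left X.hV)
    have h4 : ∀ᶠ N in (X.V : Filter ℕ), Fintype.card ι < N :=
      X.hV (eventually_gt_atTop (Fintype.card ι))
    filter_upwards [h4] with N hN
    rw [Real.norm_eq_abs]
    exact LN_step (X.S N) hN P j₀ hP Φ hΦ
  have := tendsto_nhds_unique h1 h3
  linarith

theorem Fam.E_local {ι' : Type} [Fintype ι'] (Φ : (J → Prop) → ℝ)
    (hΦ : ∀ v, |Φ v| ≤ 1) (j₀ : J) (n : ℕ) : ∀ (ι : Type) [Fintype ι],
    Fintype.card ι = n → ∀ (g : ι' ↪ ι) (P : J → (Fin 2 → ι) → Prop),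
    (∀ c : Fin 2 → ι, (∃ t, c t ∉ Set.range g) → ∀ j, (P j c ↔ P j₀ c)) →
    X.E ι (fun U => Φ (fun j => U (P j)))
      = X.E ι' (fun U => Φ (fun j => U (fun c => P j (fun t => g (c t))))) := by
  classical
  induction n with
  | zero =>
    intro ι _ hn g P hP
    have h1 : Function.Surjective g := by
      intro x
      have : IsEmpty ι := Fintype.card_eq_zero_iff.1 hn
      exact this.elim x
    exact (X.E_equiv (Equiv.ofBijective g ⟨g.injective, h1⟩) P Φ).symm
  | succ n ih =>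
    intro ι _ hn g P hP
    by_cases h1 : Function.Surjective g
    · exact (X.E_equiv (Equiv.ofBijective g ⟨g.injective, h1⟩) P Φ).symm
    · unfold Function.Surjective at h1
      push Not at h1
      obtain ⟨i, hi⟩ := h1
      have hi' : i ∉ Set.range g := by
        rintro ⟨x, hx⟩
        exact hi x hx
      have hcard : Fintype.card {b : ι // b ≠ i} = n := by
        rw [Fintype.card_subtype_compl, hn]
        simp
      have h2 := X.E_equiv (Equiv.optionSubtypeNe i) P Φ
      rw [← h2]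
      rw [X.E_step (fun j c => P j (fun t => (Equiv.optionSubtypeNe i) (c t))) j₀ ?_ Φ hΦ]
      · have h3 := ih {b : ι // b ≠ i} hcard
          ⟨fun x => ⟨g x, hi x⟩, fun x y hxy => g.injective (congrArg Subtype.val hxy)⟩
          (fun j e => P j (fun t => (Equiv.optionSubtypeNe i) (some (e t)))) ?_
        · rw [h3]
          rfl
        · rintro c ⟨t, ht⟩
          refine hP _ ⟨t, ?_⟩
          rintro ⟨x, hx⟩
          refine ht ⟨x, ?_⟩
          apply Subtype.ext
          exact hx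
      · rintro e ⟨t, ht⟩
        refine hP _ ⟨t, ?_⟩
        rw [ht]
        exact hi'

/-- the joint law depends only on the part of the patterns over the indices involved in the
differences -/
theorem Fam.E_loc {ι ι' : Type} [Fintype ι] [Fintype ι'] (g : ι' ↪ ι) (j₀ : J) [Finite J]
    (P : J → (Fin 2 → ι) → Prop)
    (h : ∀ c : Fin 2 → ι, (∃ t, c t ∉ Set.range g) → ∀ j, (P j c ↔ P j₀ c))
    (Φ : (J → Prop) → ℝ) :
    X.E ι (fun U => Φ (fun j => U (P j)))
      = X.E ι' (fun U => Φ (fun j => U (fun c => P j (fun t => g (c t))))) := by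
  obtain ⟨B, hB⟩ := (Set.finite_range (fun v => |Φ v|)).bddAbove
  set C := max B 1 with hC
  have hC0 : 0 < C := lt_of_lt_of_le one_pos (le_max_right _ _)
  have hC1 : ∀ v, |C⁻¹ * Φ v| ≤ 1 := by
    intro v
    rw [abs_mul, abs_of_pos (inv_pos.2 hC0), inv_mul_le_iff₀ hC0, mul_one]
    exact (hB ⟨v, rfl⟩).trans (le_max_left _ _)
  have h1 := X.E_local (fun v => C⁻¹ * Φ v) hC1 j₀ (Fintype.card ι) ι rfl g P h
  rw [X.E_smul C⁻¹ (fun U => Φ (fun j => U (P j))),
    X.E_smul C⁻¹ (fun U => Φ (fun j => U (fun c => P j (fun t => g (c t)))))] at h1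
  exact mul_left_cancel₀ (inv_ne_zero hC0.ne') h1

end Pool.Agent.TH635.BV
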