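import Mathlib
import Pool.Agent.TH635.BV.Lim

set_option autoImplicit false

/-!
# Joint laws of patterns on intervals
-/

namespace Pool.Agent.TH635.BV

open Finset Filter Topology Pool.Agent.TH7.DH

/-- the pattern given by a relation on numbers -/
def pt (M : ℕ) (p : ℕ → ℕ → Prop) : (Fin 2 → Fin M) → Prop := fun c => p (c 0).1 (c 1).1

open Classical in
/-- the indicator of the event that the pattern is in the family -/
noncomputable def f {M : ℕ} (U : ((Fin 2 → Fin M) → Prop) → Prop) (p : ℕ → ℕ → Prop) : ℝ :=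
  if U (pt M p) then 1 else 0

lemma f01 {M : ℕ} (U : ((Fin 2 → Fin M) → Prop) → Prop) (p : ℕ → ℕ → Prop) :
    f U p = 0 ∨ f U p = 1 := by
  unfold f
  split_ifs
  · exact Or.inr rfl
  · exact Or.inl rfl

lemma f_sq {M : ℕ} (U : ((Fin 2 → Fin M) → Prop) → Prop) (p : ℕ → ℕ → Prop) :
    f U p * f U p = f U p := by
  rcases f01 U p with h | h <;> rw [h] <;> norm_num

lemma f_excl {M : ℕ} {U : ((Fin 2 → Fin M) → Prop) → Prop} (hU : Adm U) {p q : ℕ → ℕ → Prop}
    (a b : ℕ) (hab : a < b) (hb : b ≤ M)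
    (h1 : ∀ x y, a ≤ x → x < b → a ≤ y → y < b → ¬ p x y)
    (h2 : ∀ x y, x < M → y < M → (q x y ↔ p x y ∨ (a ≤ x ∧ x < b ∧ a ≤ y ∧ y < b))) :
    f U p * f U q = 0 := by
  classical
  have h3 := hU (pt M p) (univ.filter (fun i : Fin M => a ≤ i.1 ∧ i.1 < b))
    ⟨⟨a, by omega⟩, by simp [hab]⟩ (fun c hc => by
      have e0 := hc 0
      have e1 := hc 1
      simp only [mem_filter, mem_univ, true_and] at e0 e1
      exact h1 _ _ e0.1 e0.2 e1.1 e1.2)
  have h4 : (fun c => pt M p c ∨ ∀ t, c t ∈ univ.filter (fun i : Fin M => a ≤ i.1 ∧ i.1 < b))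
      = pt M q := by
    funext c
    refine propext ?_
    unfold pt
    rw [h2 _ _ (c 0).2 (c 1).2, Fin.forall_fin_two]
    simp only [mem_filter, mem_univ, true_and]
    tauto
  rw [h4] at h3
  unfold f
  split_ifs with e1 e2
  · exact (h3 ⟨e1, e2⟩).elim
  · simp
  · simp
  · simp

variable (X : Fam)

lemma Fam.E_abs {ι : Type} [Fintype ι] {Ψ : (((Fin 2 → ι) → Prop) → Prop) → ℝ} {B : ℝ}
    (hB : 0 ≤ B) (h : ∀ U, |Ψ U| ≤ B) : |X.E ι Ψ| ≤ B :=
  le_of_tendsto (X.tendsto ι Ψ).abs (Eventually.of_forall fun _ => LN_bdd hB h)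

lemma Fam.E_pair_abs {M : ℕ} (p q : ℕ → ℕ → Prop) :
    |X.E (Fin M) (fun U => f U p * f U q)| ≤ 1 := by
  refine X.E_abs zero_le_one fun U => ?_
  rcases f01 U p with h | h <;> rcases f01 U q with h' | h' <;> rw [h, h'] <;> norm_num

theorem Fam.law {J : Type} [Finite J] (j₀ : J) {M M' : ℕ} (s : ℕ → ℕ) (hs : ∀ x, x < M' → s x < M)
    (hinj : ∀ x y, x < M' → y < M' → s x = s y → x = y) (p p' : J → ℕ → ℕ → Prop)
    (hA : ∀ j x y, x < M' → y < M' → (p j (s x) (s y) ↔ p' j x y))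
    (hB : ∀ j x y, x < M → y < M → ((∀ z, z < M' → s z ≠ x) ∨ (∀ z, z < M' → s z ≠ y)) →
      (p j x y ↔ p j₀ x y))
    (Φ : (J → Prop) → ℝ) :
    X.E (Fin M) (fun U => Φ (fun j => U (pt M (p j))))
      = X.E (Fin M') (fun U => Φ (fun j => U (pt M' (p' j)))) := by
  have h1 := X.E_loc (ι := Fin M) (ι' := Fin M')
    ⟨fun i => ⟨s i, hs i i.2⟩, fun i j hij => Fin.ext (hinj i j i.2 j.2 (congrArg Fin.val hij))⟩
    j₀ (fun j => pt M (p j)) ?_ Φ
  · rw [h1]
    congr 1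
    funext U
    congr 1
    funext j
    congr 1
    funext c
    exact propext (hA j _ _ (c 0).2 (c 1).2)
  · rintro c ⟨t, ht⟩ j
    refine hB j _ _ (c 0).2 (c 1).2 ?_
    have h2 : ∀ z, z < M' → s z ≠ (c t).1 := by
      intro z hz hsz
      exact ht ⟨⟨z, hz⟩, Fin.ext hsz⟩
    fin_cases t
    · exact Or.inl h2
    · exact Or.inr h2

/-- two intervals put one after the other -/
def sh (a b c x : ℕ) : ℕ := if x < b then a + x else c + (x - b)

theorem Fam.law2 {J : Type} [Finite J] (j₀ : J) {M a b c u : ℕ} (h1 : a + b ≤ M) (h2 : c + u ≤ M)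
    (hd : a + b ≤ c ∨ c + u ≤ a) (p p' : J → ℕ → ℕ → Prop)
    (hA : ∀ j x y, x < b + u → y < b + u → (p j (sh a b c x) (sh a b c y) ↔ p' j x y))
    (hB : ∀ j x y, x < M → y < M → ¬ ((a ≤ x ∧ x < a + b ∨ c ≤ x ∧ x < c + u) ∧
      (a ≤ y ∧ y < a + b ∨ c ≤ y ∧ y < c + u)) → (p j x y ↔ p j₀ x y))
    (Φ : (J → Prop) → ℝ) :
    X.E (Fin M) (fun U => Φ (fun j => U (pt M (p j))))
      = X.E (Fin (b + u)) (fun U => Φ (fun j => U (pt (b + u) (p' j)))) := by
  refine X.law j₀ (sh a b c) ?_ ?_ p p' hA ?_ Φ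
  · intro x hx
    unfold sh
    split_ifs <;> omega
  · intro x y hx hy
    unfold sh
    split_ifs <;> omega
  · intro j x y hx hy hxy
    refine hB j x y hx hy ?_
    rintro ⟨hx', hy'⟩
    rcases hxy with h | h
    · rcases hx' with h3 | h3
      · refine h (x - a) (by omega) ?_
        unfold sh
        split_ifs <;> omega
      · refine h (x - c + b) (by omega) ?_
        unfold sh
        split_ifs <;> omega
    · rcases hy' with h3 | h3
      · refine h (y - a) (by omega) ?_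
        unfold sh
        split_ifs <;> omega
      · refine h (y - c + b) (by omega) ?_
        unfold sh
        split_ifs <;> omega

theorem Fam.pair {M a b c u : ℕ} (h1 : a + b ≤ M) (h2 : c + u ≤ M)
    (hd : a + b ≤ c ∨ c + u ≤ a) (p q p' q' : ℕ → ℕ → Prop)
    (hp : ∀ x y, x < b + u → y < b + u → (p (sh a b c x) (sh a b c y) ↔ p' x y))
    (hq : ∀ x y, x < b + u → y < b + u → (q (sh a b c x) (sh a b c y) ↔ q' x y))
    (hB : ∀ x y, x < M → y < M → ¬ ((a ≤ x ∧ x < a + b ∨ c ≤ x ∧ x < c + u) ∧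
      (a ≤ y ∧ y < a + b ∨ c ≤ y ∧ y < c + u)) → (p x y ↔ q x y)) :
    X.E (Fin M) (fun U => f U p * f U q) = X.E (Fin (b + u)) (fun U => f U p' * f U q') := by
  classical
  exact X.law2 (J := Bool) false h1 h2 hd (fun j => bif j then q else p)
    (fun j => bif j then q' else p')
    (fun j x y hx hy => by
      cases j
      · exact hp x y hx hy
      · exact hq x y hx hy)
    (fun j x y hx hy h => by
      cases j
      · exact Iff.rfl
      · exact (hB x y hx hy h).symm)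
    (fun v => (if v false then (1 : ℝ) else 0) * (if v true then (1 : ℝ) else 0))

theorem Fam.quad {M a b c u : ℕ} (h1 : a + b ≤ M) (h2 : c + u ≤ M)
    (hd : a + b ≤ c ∨ c + u ≤ a) (p₁ p₂ p₃ p₄ q₁ q₂ q₃ q₄ : ℕ → ℕ → Prop)
    (hp₁ : ∀ x y, x < b + u → y < b + u → (p₁ (sh a b c x) (sh a b c y) ↔ q₁ x y))
    (hp₂ : ∀ x y, x < b + u → y < b + u → (p₂ (sh a b c x) (sh a b c y) ↔ q₂ x y))
    (hp₃ : ∀ x y, x < b + u → y < b + u → (p₃ (sh a b c x) (sh a b c y) ↔ q₃ x y))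
    (hp₄ : ∀ x y, x < b + u → y < b + u → (p₄ (sh a b c x) (sh a b c y) ↔ q₄ x y))
    (hB : ∀ x y, x < M → y < M → ¬ ((a ≤ x ∧ x < a + b ∨ c ≤ x ∧ x < c + u) ∧
      (a ≤ y ∧ y < a + b ∨ c ≤ y ∧ y < c + u)) →
      (p₂ x y ↔ p₁ x y) ∧ (p₃ x y ↔ p₁ x y) ∧ (p₄ x y ↔ p₁ x y)) :
    X.E (Fin M) (fun U => (f U p₁ + f U p₂ - f U p₃ - f U p₄) ^ 2)
      = X.E (Fin (b + u)) (fun U => (f U q₁ + f U q₂ - f U q₃ - f U q₄) ^ 2) := by
  classical
  exact X.law2 (J := Bool × Bool) (false, false) h1 h2 hd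
    (fun j => bif j.1 then (bif j.2 then p₄ else p₃) else (bif j.2 then p₂ else p₁))
    (fun j => bif j.1 then (bif j.2 then q₄ else q₃) else (bif j.2 then q₂ else q₁))
    (fun j x y hx hy => by
      rcases j with ⟨_ | _, _ | _⟩
      · exact hp₁ x y hx hy
      · exact hp₂ x y hx hy
      · exact hp₃ x y hx hy
      · exact hp₄ x y hx hy)
    (fun j x y hx hy h => by
      rcases j with ⟨_ | _, _ | _⟩
      · exact Iff.rfl
      · exact (hB x y hx hy h).1
      · exact (hB x y hx hy h).2.1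
      · exact (hB x y hx hy h).2.2)
    (fun v => ((if v (false, false) then (1 : ℝ) else 0) + (if v (false, true) then (1 : ℝ) else 0)
      - (if v (true, false) then (1 : ℝ) else 0) - (if v (true, true) then (1 : ℝ) else 0)) ^ 2)

/-- the density -/
noncomputable def Fam.D : ℝ := X.E (Fin 0) (fun U => f U (fun _ _ => True))

lemma Fam.E_f (M : ℕ) (p : ℕ → ℕ → Prop) : X.E (Fin M) (fun U => f U p) = X.D := by
  classical
  exact X.law (J := Unit) () (M := M) (M' := 0) id (fun x hx => by omega) (fun x y hx => by omega)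
    (fun _ => p) (fun _ _ _ => True) (fun j x y hx => by omega) (fun j x y _ _ _ => Iff.rfl)
    (fun v => if v () then (1 : ℝ) else 0)

lemma Fam.E_ff (M : ℕ) (p : ℕ → ℕ → Prop) : X.E (Fin M) (fun U => f U p * f U p) = X.D := by
  simp only [f_sq]
  exact X.E_f M p

/-- patterns of two blocks -/
def LL (b : ℕ) : ℕ → ℕ → Prop := fun x y => x < b ∧ y < b
def RR (b : ℕ) : ℕ → ℕ → Prop := fun x y => b ≤ x ∧ b ≤ y
def DD (b : ℕ) : ℕ → ℕ → Prop := fun x y => (x < b ∧ y < b) ∨ (b ≤ x ∧ b ≤ y)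
def NL (b : ℕ) : ℕ → ℕ → Prop := fun x y => b ≤ x ∨ b ≤ y
def Top : ℕ → ℕ → Prop := fun _ _ => True
def Bot : ℕ → ℕ → Prop := fun _ _ => False

/-- nested squares: `Y²` and `(A ∪ Y)²` -/
noncomputable def Fam.k (a y : ℕ) : ℝ := X.E (Fin (a + y)) (fun U => f U (RR a) * f U Top)
/-- `A² ∪ Y²` and `(A ∪ Y)²` -/
noncomputable def Fam.k' (a y : ℕ) : ℝ := X.E (Fin (a + y)) (fun U => f U (DD a) * f U Top)
/-- disjoint squares -/
noncomputable def Fam.K (a y : ℕ) : ℝ := X.E (Fin (a + y)) (fun U => f U (LL a) * f U (RR a))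
/-- empty set and two squares -/
noncomputable def Fam.g (a y : ℕ) : ℝ := X.E (Fin (a + y)) (fun U => f U (DD a) * f U Bot)
/-- the squared defect -/
noncomputable def Fam.δ (b u : ℕ) : ℝ :=
  X.E (Fin (b + u)) (fun U => (f U (RR b) + f U (DD b) - f U (NL b) - f U Top) ^ 2)

end Pool.Agent.TH635.BV
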