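import Mathlib
import Pool.Agent.TH635.BV.Law

set_option autoImplicit false

/-!
# Averages of nested squares
-/

namespace Pool.Agent.TH635.BV

open Finset Filter Topology Pool.Agent.TH7.DH

variable (X : Fam)

lemma Fam.k_bdd (a : ℕ) : Bdd (X.k a) := ⟨1, fun _ => X.E_pair_abs _ _⟩
lemma Fam.k'_bdd (a : ℕ) : Bdd (X.k' a) := ⟨1, fun _ => X.E_pair_abs _ _⟩
lemma Fam.K_bdd (a : ℕ) : Bdd (X.K a) := ⟨1, fun _ => X.E_pair_abs _ _⟩
lemma Fam.g_bdd (a : ℕ) : Bdd (X.g a) := ⟨1, fun _ => X.E_pair_abs _ _⟩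

lemma mean_abs {a : ℕ → ℝ} {B : ℝ} (h : ∀ n, |a n| ≤ B) : |mean a| ≤ B := by
  have h1 := mean_mono (bdd_const (-B)) ⟨B, h⟩ fun n => (abs_le.1 (h n)).1
  have h2 := mean_mono ⟨B, h⟩ (bdd_const B) fun n => (abs_le.1 (h n)).2
  rw [mean_const] at h1 h2
  exact abs_le.2 ⟨h1, h2⟩

noncomputable def Fam.κ₁ (a : ℕ) : ℝ := mean (X.k a)

lemma Fam.κ₁_bdd : Bdd X.κ₁ := ⟨1, fun a => mean_abs fun _ => X.E_pair_abs _ _⟩

noncomputable def Fam.κ : ℝ := mean X.κ₁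

/-- average of indicators -/
noncomputable def Zf {M : ℕ} (n : ℕ) (q : ℕ → ℕ → ℕ → Prop)
    (U : ((Fin 2 → Fin M) → Prop) → Prop) : ℝ :=
  (1 / ((n : ℝ) + 1)) * ∑ i ∈ range (n + 1), f U (q i)

lemma Fam.E_Z (M n : ℕ) (q : ℕ → ℕ → ℕ → Prop) : X.E (Fin M) (fun U => Zf n q U) = X.D := by
  unfold Zf
  rw [X.E_smul, X.E_sum]
  simp only [X.E_f, sum_const, card_range, nsmul_eq_mul]
  have : (0 : ℝ) < (n : ℝ) + 1 := by positivity
  push_cast
  field_simp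

lemma Fam.E_Zf (M n : ℕ) (q : ℕ → ℕ → ℕ → Prop) (p : ℕ → ℕ → Prop) :
    X.E (Fin M) (fun U => Zf n q U * f U p)
      = (1 / ((n : ℝ) + 1)) * ∑ i ∈ range (n + 1), X.E (Fin M) (fun U => f U (q i) * f U p) := by
  unfold Zf
  simp only [mul_assoc, sum_mul]
  rw [X.E_smul, X.E_sum]

lemma Fam.E_ZW (M n : ℕ) (q q' : ℕ → ℕ → ℕ → Prop) :
    X.E (Fin M) (fun U => Zf n q U * Zf n q' U)
      = (1 / ((n : ℝ) + 1)) * ((1 / ((n : ℝ) + 1)) * ∑ i ∈ range (n + 1), ∑ j ∈ range (n + 1),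
        X.E (Fin M) (fun U => f U (q i) * f U (q' j))) := by
  have h1 : ∀ U : ((Fin 2 → Fin M) → Prop) → Prop, Zf n q U * Zf n q' U
      = (1 / ((n : ℝ) + 1)) * ((1 / ((n : ℝ) + 1)) *
        ∑ i ∈ range (n + 1), ∑ j ∈ range (n + 1), f U (q i) * f U (q' j)) := by
    intro U
    unfold Zf
    rw [← sum_mul_sum]
    ring
  simp only [h1]
  rw [X.E_smul, X.E_smul, X.E_sum]
  simp only [X.E_sum]

lemma Fam.E_ZZ (M n : ℕ) (q : ℕ → ℕ → ℕ → Prop) :
    X.E (Fin M) (fun U => Zf n q U * Zf n q U)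
      = (((n : ℝ) + 1) * X.D + 2 * ∑ j ∈ range (n + 1), ∑ i ∈ range j,
        X.E (Fin M) (fun U => f U (q i) * f U (q j))) / ((n : ℝ) + 1) ^ 2 := by
  have hsq : ∀ (a : ℕ → ℝ) (m : ℕ), (∑ i ∈ range m, a i) ^ 2
      = ∑ i ∈ range m, a i * a i + 2 * ∑ j ∈ range m, ∑ i ∈ range j, a i * a j := by
    intro a m
    induction m with
    | zero => simp
    | succ m ih =>
      rw [sum_range_succ, sum_range_succ (fun i => a i * a i),
        sum_range_succ (fun j => ∑ i ∈ range j, a i * a j), add_sq, ih, ← sum_mul]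
      ring
  have h1 : ∀ U : ((Fin 2 → Fin M) → Prop) → Prop, Zf n q U * Zf n q U
      = (1 / ((n : ℝ) + 1) ^ 2) * (∑ i ∈ range (n + 1), f U (q i) * f U (q i)
        + 2 * ∑ j ∈ range (n + 1), ∑ i ∈ range j, f U (q i) * f U (q j)) := by
    intro U
    rw [← hsq]
    unfold Zf
    have hn : (n : ℝ) + 1 ≠ 0 := by positivity
    field_simp
  simp only [h1]
  rw [X.E_smul, X.E_add, X.E_sum, X.E_smul, X.E_sum]
  simp only [X.E_sum, X.E_ff, sum_const, card_range, nsmul_eq_mul]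
  push_cast
  ring

/-- the background `Q` and the square of the first `x` indices from `c` on -/
def qp (c : ℕ) (Q : ℕ → ℕ → Prop) (x : ℕ) : ℕ → ℕ → Prop :=
  fun i j => (c ≤ i ∧ i < c + x ∧ c ≤ j ∧ j < c + x) ∨ Q i j

lemma Fam.nest {M c x x' : ℕ} (Q : ℕ → ℕ → Prop) (hx : x ≤ x') (hM : c + x' ≤ M)
    (hQ : ∀ i j, c ≤ i → i < c + x' → c ≤ j → j < c + x' → ¬ Q i j) :
    X.E (Fin M) (fun U => f U (qp c Q x) * f U (qp c Q x')) = X.k (x' - x) x := by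
  refine X.pair (a := c + x) (b := x' - x) (c := c) (u := x) (by omega) (by omega)
    (Or.inr le_rfl) (qp c Q x) (qp c Q x') (RR (x' - x)) Top ?_ ?_ ?_
  · intro i j hi hj
    have h5 : ¬ Q (sh (c + x) (x' - x) c i) (sh (c + x) (x' - x) c j) := by
      refine hQ _ _ ?_ ?_ ?_ ?_ <;> unfold sh <;> split_ifs <;> omega
    simp only [qp, h5, or_false]
    unfold sh RR
    split_ifs <;> omega
  · intro i j hi hj
    have h5 : ¬ Q (sh (c + x) (x' - x) c i) (sh (c + x) (x' - x) c j) := by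
      refine hQ _ _ ?_ ?_ ?_ ?_ <;> unfold sh <;> split_ifs <;> omega
    simp only [qp, h5, or_false, Top, iff_true]
    unfold sh
    split_ifs <;> omega
  · intro i j hi hj h
    unfold qp
    have h1 : ¬ (c ≤ i ∧ i < c + x ∧ c ≤ j ∧ j < c + x) := by omega
    have h2 : ¬ (c ≤ i ∧ i < c + x' ∧ c ≤ j ∧ j < c + x') := by omega
    simp only [h1, h2, false_or]

/-- the value of the square of an average of nested squares -/
noncomputable def Fam.qv (n : ℕ) (r : ℕ → ℕ) (y : ℕ) : ℝ :=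
  (((n : ℝ) + 1) * X.D + 2 * ∑ j ∈ range (n + 1), ∑ i ∈ range j, X.k (r j - r i) (y + r i))
    / ((n : ℝ) + 1) ^ 2

lemma rmono {n : ℕ} {r : ℕ → ℕ} (hr : ∀ i j, i < j → j ≤ n → r i < r j) {i j : ℕ} (hij : i ≤ j)
    (hj : j ≤ n) : r i ≤ r j := by
  rcases Nat.lt_or_ge i j with h | h
  · exact (hr i j h hj).le
  · have : i = j := by omega
    rw [this]

lemma Fam.E_nest {M c n y : ℕ} {r : ℕ → ℕ} (hr : ∀ i j, i < j → j ≤ n → r i < r j)
    (Q : ℕ → ℕ → Prop) (hM : c + (y + r n) ≤ M)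
    (hQ : ∀ i j, c ≤ i → i < c + (y + r n) → c ≤ j → j < c + (y + r n) → ¬ Q i j) :
    X.E (Fin M) (fun U => Zf n (fun i => qp c Q (y + r i)) U * Zf n (fun i => qp c Q (y + r i)) U)
      = X.qv n r y := by
  have h : ∀ j ∈ range (n + 1), ∀ i ∈ range j,
      X.E (Fin M) (fun U => f U (qp c Q (y + r i)) * f U (qp c Q (y + r j)))
        = X.k (r j - r i) (y + r i) := by
    intro j hj i hi
    have hj' : j ≤ n := by
      have := mem_range.1 hj
      omega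
    have hi' := mem_range.1 hi
    have h1 := hr i j hi' hj'
    have h2 := rmono hr hj' le_rfl
    rw [X.nest Q (by omega) (by omega) fun i' j' a b c' d => hQ i' j' a (by omega) c' (by omega)]
    rw [Nat.add_sub_add_left]
  have h' : ∑ j ∈ range (n + 1), ∑ i ∈ range j,
      X.E (Fin M) (fun U => f U (qp c Q (y + r i)) * f U (qp c Q (y + r j)))
        = ∑ j ∈ range (n + 1), ∑ i ∈ range j, X.k (r j - r i) (y + r i) :=
    sum_congr rfl fun j hj => sum_congr rfl fun i hi => h j hj i hi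
  rw [X.E_ZZ, h']
  rfl

lemma Fam.qv_bdd (n : ℕ) (r : ℕ → ℕ) : Bdd (X.qv n r) := by
  have h1 : Bdd (fun y => ∑ j ∈ range (n + 1), ∑ i ∈ range j, X.k (r j - r i) (y + r i)) :=
    bdd_sum _ (fun j y => ∑ i ∈ range j, X.k (r j - r i) (y + r i)) fun j _ =>
      bdd_sum _ (fun i y => X.k (r j - r i) (y + r i)) fun i _ => (X.k_bdd _).shift _
  have h2 := ((bdd_const (((n : ℝ) + 1) * X.D)).add (h1.smul 2)).smul (1 / ((n : ℝ) + 1) ^ 2)
  obtain ⟨B, hB⟩ := h2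
  refine ⟨B, fun y => ?_⟩
  have := hB y
  unfold Fam.qv
  rw [div_eq_mul_one_div, mul_comm]
  exact this

lemma Fam.qv_mean (n : ℕ) (r : ℕ → ℕ) : mean (X.qv n r)
    = X.D / ((n : ℝ) + 1) + 2 / ((n : ℝ) + 1) ^ 2 *
      ∑ j ∈ range (n + 1), ∑ i ∈ range j, X.κ₁ (r j - r i) := by
  have bG : ∀ j i, Bdd (fun y => X.k (r j - r i) (y + r i)) := fun j i => (X.k_bdd _).shift _
  have bS3' : ∀ j, Bdd (fun y => ∑ i ∈ range j, X.k (r j - r i) (y + r i)) := fun j =>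
    bdd_sum _ (fun i y => X.k (r j - r i) (y + r i)) fun i _ => bG j i
  have bS3 : Bdd (fun y => ∑ j ∈ range (n + 1), ∑ i ∈ range j, X.k (r j - r i) (y + r i)) :=
    bdd_sum _ (fun j y => ∑ i ∈ range j, X.k (r j - r i) (y + r i)) fun j _ => bS3' j
  have e : X.qv n r = fun y => X.D / ((n : ℝ) + 1) + 2 / ((n : ℝ) + 1) ^ 2 *
      ∑ j ∈ range (n + 1), ∑ i ∈ range j, X.k (r j - r i) (y + r i) := by
    funext y
    unfold Fam.qv
    have : (0 : ℝ) < (n : ℝ) + 1 := by positivity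
    field_simp
  rw [e, mean_add (bdd_const _) (bS3.smul _), mean_const, mean_smul _ bS3,
    mean_sum _ (fun j y => ∑ i ∈ range j, X.k (r j - r i) (y + r i)) fun j _ => bS3' j]
  congr 2
  refine sum_congr rfl fun j _ => ?_
  rw [mean_sum _ (fun i y => X.k (r j - r i) (y + r i)) fun i _ => bG j i]
  exact sum_congr rfl fun i _ => mean_shift (r i) (X.k_bdd _)

/-- double sums bounded with the help of `exists_seq` -/
lemma dsum {ρ : ℕ → ℝ} {m : ℝ} {n : ℕ} {r : ℕ → ℕ}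
    (hs : ∀ j ≤ n, ∑ i ∈ range j, ρ (r j - r i) ≤ j * m) :
    2 / ((n : ℝ) + 1) ^ 2 * ∑ j ∈ range (n + 1), ∑ i ∈ range j, ρ (r j - r i)
      ≤ m - m / ((n : ℝ) + 1) := by
  have hn : (0 : ℝ) < (n : ℝ) + 1 := by positivity
  have h1 : ∑ j ∈ range (n + 1), ∑ i ∈ range j, ρ (r j - r i)
      ≤ ∑ j ∈ range (n + 1), (j : ℝ) * m :=
    sum_le_sum fun j hj => hs j (by have := mem_range.1 hj; omega)
  have h2 : ∑ j ∈ range (n + 1), (j : ℝ) * m = (n : ℝ) * (n + 1) / 2 * m := by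
    rw [← sum_mul]
    congr 1
    have h7 := Finset.sum_range_id_mul_two (n + 1)
    have h9 : (∑ i ∈ range (n + 1), i) * 2 = (n + 1) * n := by
      rw [h7, Nat.add_sub_cancel]
    have h8 : ((∑ i ∈ range (n + 1), i : ℕ) : ℝ) * 2 = ((n + 1 : ℕ) : ℝ) * ((n : ℕ) : ℝ) := by
      exact_mod_cast h9
    push_cast at h8
    linarith
  rw [h2] at h1
  refine (mul_le_mul_of_nonneg_left h1 (by positivity)).trans (le_of_eq ?_)
  field_simp
  ring

lemma Fam.k_nonneg (hX : X.Bad) (a y : ℕ) : 0 ≤ X.k a y := by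
  have h := X.E_mono hX (ι := Fin (a + y)) (Ψ := fun _ => 0)
    (Ψ' := fun U => f U (RR a) * f U Top) fun U _ => by
      rcases f01 U (RR a) with h | h <;> rcases f01 U Top with h' | h' <;> rw [h, h'] <;> norm_num
  rwa [X.E_const] at h

lemma Fam.D_nonneg (hX : X.Bad) : 0 ≤ X.D := by
  have h := X.E_mono hX (ι := Fin 0) (Ψ := fun _ => 0)
    (Ψ' := fun U => f U (fun _ _ => True)) fun U _ => by
      rcases f01 U (fun _ _ => True) with h | h <;> rw [h]; norm_num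
  rwa [X.E_const] at h

lemma Fam.D_le (hX : X.Bad) : X.D ≤ 1 := by
  have h := X.E_mono hX (ι := Fin 0) (Ψ' := fun _ => 1)
    (Ψ := fun U => f U (fun _ _ => True)) fun U _ => by
      rcases f01 U (fun _ _ => True) with h | h <;> rw [h]; norm_num
  rwa [X.E_const] at h

lemma Fam.κ₁_nonneg (hX : X.Bad) (a : ℕ) : 0 ≤ X.κ₁ a := by
  have h := mean_mono (bdd_const 0) (X.k_bdd a) fun y => X.k_nonneg hX a y
  rwa [mean_const] at h

lemma Fam.κ_nonneg (hX : X.Bad) : 0 ≤ X.κ := by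
  have h := mean_mono (bdd_const 0) X.κ₁_bdd fun y => X.κ₁_nonneg hX y
  rwa [mean_const] at h

lemma Fam.exists_r (hX : X.Bad) {ε : ℝ} (hε : 0 < ε) :
    ∃ (n : ℕ) (r : ℕ → ℕ), (∀ i j, i < j → j ≤ n → r i < r j) ∧ mean (X.qv n r) ≤ X.κ + ε := by
  obtain ⟨n, hn⟩ := exists_nat_gt (X.D / (ε / 2))
  obtain ⟨r, hr, hs⟩ := exists_seq X.κ₁_bdd (half_pos hε) n
  refine ⟨n, r, hr, ?_⟩
  have hn0 : (0 : ℝ) < (n : ℝ) + 1 := by positivity
  have h1 := dsum hs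
  rw [X.qv_mean]
  have h2 : X.D / ((n : ℝ) + 1) ≤ ε / 2 := by
    rw [div_lt_iff₀ (by positivity)] at hn
    rw [div_le_iff₀ hn0]
    nlinarith
  have h3 : 0 ≤ (mean X.κ₁ + ε / 2) / ((n : ℝ) + 1) := by
    have := X.κ_nonneg hX
    unfold Fam.κ at this
    positivity
  unfold Fam.κ
  linarith

end Pool.Agent.TH635.BV
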