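import Mathlib
import Pool.Agent.TH635.BV.Items

set_option autoImplicit false

/-!
# The defect bound
-/

namespace Pool.Agent.TH635.BV

open Finset Filter Topology Pool.Agent.TH7.DH

variable (X : Fam)

/-- squares of both blocks and the cross cells up to `x` -/
def wq (b x : ℕ) : ℕ → ℕ → Prop := fun i j =>
  (i < b ∧ j < b) ∨ (b ≤ i ∧ b ≤ j) ∨ (i < b ∧ b ≤ j ∧ j < b + x) ∨ (j < b ∧ b ≤ i ∧ i < b + x)

/-- square of the second block and the cross cells up to `x` -/
def tq (b x : ℕ) : ℕ → ℕ → Prop := fun i j =>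
  (b ≤ i ∧ b ≤ j) ∨ (i < b ∧ b ≤ j ∧ j < b + x) ∨ (j < b ∧ b ≤ i ∧ i < b + x)

lemma Fam.w1 {M b x u : ℕ} (hu : u ≤ x) (hM : b + x ≤ M) :
    X.E (Fin M) (fun U => f U (tq b u) * f U (wq b x)) = X.k b (x - u) := by
  refine X.pair (a := 0) (b := b) (c := b + u) (u := x - u) (by omega) (by omega)
    (Or.inl (by omega)) _ _ (RR b) Top ?_ ?_ ?_
  · intro i j hi hj
    unfold tq sh RR
    split_ifs <;> omega
  · intro i j hi hj
    simp only [Top, iff_true]
    unfold wq sh
    split_ifs <;> omega
  · intro i j hi hj h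
    unfold tq wq
    omega

lemma Fam.w2 {M b x u : ℕ} (hu : u ≤ x) (hM : b + x ≤ M) :
    X.E (Fin M) (fun U => f U (wq b u) * f U (wq b x)) = X.k' b (x - u) := by
  refine X.pair (a := 0) (b := b) (c := b + u) (u := x - u) (by omega) (by omega)
    (Or.inl (by omega)) _ _ (DD b) Top ?_ ?_ ?_
  · intro i j hi hj
    unfold wq sh DD
    split_ifs <;> omega
  · intro i j hi hj
    simp only [Top, iff_true]
    unfold wq sh
    split_ifs <;> omega
  · intro i j hi hj h
    unfold wq
    omega

lemma Fam.w4 {M b u : ℕ} (hM : b + u ≤ M) :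
    X.E (Fin M) (fun U => (f U (tq b 0) + f U (wq b 0) - f U (tq b u) - f U (wq b u)) ^ 2)
      = X.δ b u := by
  refine X.quad (a := 0) (b := b) (c := b) (u := u) (by omega) (by omega)
    (Or.inl (by omega)) _ _ _ _ (RR b) (DD b) (NL b) Top ?_ ?_ ?_ ?_ ?_
  · intro i j hi hj
    unfold tq sh RR
    split_ifs <;> omega
  · intro i j hi hj
    unfold wq sh DD
    split_ifs <;> omega
  · intro i j hi hj
    unfold tq sh NL
    split_ifs <;> omega
  · intro i j hi hj
    simp only [Top, iff_true]
    unfold wq sh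
    split_ifs <;> omega
  · intro i j hi hj h
    unfold tq wq
    refine ⟨?_, ?_, ?_⟩ <;> omega

lemma Fam.E_fZ (M n : ℕ) (q : ℕ → ℕ → ℕ → Prop) (p : ℕ → ℕ → Prop) :
    X.E (Fin M) (fun U => f U p * Zf n q U)
      = (1 / ((n : ℝ) + 1)) * ∑ i ∈ range (n + 1), X.E (Fin M) (fun U => f U p * f U (q i)) := by
  have h1 : ∀ U : ((Fin 2 → Fin M) → Prop) → Prop, f U p * Zf n q U
      = (1 / ((n : ℝ) + 1)) * ∑ i ∈ range (n + 1), f U p * f U (q i) := by
    intro U
    unfold Zf
    rw [← mul_sum]
    ring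
  simp only [h1]
  rw [X.E_smul, X.E_sum]

lemma Fam.k'_nonneg (hX : X.Bad) (a y : ℕ) : 0 ≤ X.k' a y := by
  have h := X.E_mono hX (ι := Fin (a + y)) (Ψ := fun _ => 0)
    (Ψ' := fun U => f U (DD a) * f U Top) fun U _ => by
      rcases f01 U (DD a) with h | h <;> rcases f01 U Top with h' | h' <;> rw [h, h'] <;> norm_num
  rwa [X.E_const] at h

theorem Fam.defect (hX : X.Bad) (b u : ℕ) (hb : 1 ≤ b) :
    X.δ b u ≤ 8 * (X.D - 2 * X.κ₁ b) := by
  refine le_of_forall_pos_le_add fun ε hε => ?_
  have hk'0 : 0 ≤ mean (X.k' b) := by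
    have h := mean_mono (bdd_const 0) (X.k'_bdd b) fun y => X.k'_nonneg hX b y
    rwa [mean_const] at h
  obtain ⟨n, hn⟩ := exists_nat_gt (X.D / (ε / 32))
  obtain ⟨r, hr, hs⟩ := exists_seq (X.k'_bdd b) (by positivity : (0 : ℝ) < ε / 32) n
  set w : ℝ := 1 / ((n : ℝ) + 1) with hw
  have hn0 : (0 : ℝ) < (n : ℝ) + 1 := by positivity
  have hwn : w * ((n : ℝ) + 1) = 1 := by rw [hw]; field_simp
  set Q : ℝ := (((n : ℝ) + 1) * X.D + 2 * ∑ j ∈ range (n + 1), ∑ i ∈ range j,
    X.k' b (r j - r i)) / ((n : ℝ) + 1) ^ 2 with hQ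
  have hQle : Q ≤ mean (X.k' b) + ε / 16 := by
    have h1 := dsum hs
    have h2 : X.D / ((n : ℝ) + 1) ≤ ε / 32 := by
      rw [div_lt_iff₀ (by positivity)] at hn
      rw [div_le_iff₀ hn0]
      nlinarith
    have h3 : 0 ≤ (mean (X.k' b) + ε / 32) / ((n : ℝ) + 1) := by positivity
    have h4 : Q = X.D / ((n : ℝ) + 1) + 2 / ((n : ℝ) + 1) ^ 2 *
        ∑ j ∈ range (n + 1), ∑ i ∈ range j, X.k' b (r j - r i) := by
      rw [hQ]
      field_simp
    rw [h4]
    linarith
  have h1 : ∀ y, X.δ b u + 8 * (w * ∑ i ∈ range (n + 1), X.k b (y + (u + r i))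
      + w * ∑ i ∈ range (n + 1), X.k' b (y + (u + r i))
      + w * ∑ i ∈ range (n + 1), X.k b (y + r i)
      + w * ∑ i ∈ range (n + 1), X.k' b (y + r i)) ≤ 8 * X.D + 16 * Q := by
    intro y
    have hle : ∀ i ∈ range (n + 1), r i ≤ r n := fun i hi =>
      rmono hr (by have := mem_range.1 hi; omega) le_rfl
    have h2 := X.E_mono hX (ι := Fin (b + (y + u + r n)))
      (Ψ := fun U => (f U (tq b 0) + f U (wq b 0) - f U (tq b u) - f U (wq b u)) ^ 2
        + 8 * (f U (tq b 0) * Zf n (fun i => wq b (y + u + r i)) U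
        + f U (wq b 0) * Zf n (fun i => wq b (y + u + r i)) U
        + f U (tq b u) * Zf n (fun i => wq b (y + u + r i)) U
        + f U (wq b u) * Zf n (fun i => wq b (y + u + r i)) U))
      (Ψ' := fun U => 2 * (f U (tq b 0) + f U (wq b 0) + f U (tq b u) + f U (wq b u))
        + 16 * (Zf n (fun i => wq b (y + u + r i)) U * Zf n (fun i => wq b (y + u + r i)) U)) ?_
    · rw [X.E_add, X.E_smul, X.E_add, X.E_add, X.E_add, X.w4 (by omega), X.E_fZ, X.E_fZ, X.E_fZ,
        X.E_fZ, X.E_add, X.E_smul, X.E_smul, X.E_add, X.E_add, X.E_add, X.E_f, X.E_f, X.E_f, X.E_f,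
        X.E_ZZ] at h2
      have e1 : ∑ i ∈ range (n + 1), X.E (Fin (b + (y + u + r n)))
          (fun U => f U (tq b 0) * f U (wq b (y + u + r i)))
          = ∑ i ∈ range (n + 1), X.k b (y + (u + r i)) := by
        refine sum_congr rfl fun i hi => ?_
        have := hle i hi
        rw [X.w1 (by omega) (by omega)]
        congr 1
        omega
      have e2 : ∑ i ∈ range (n + 1), X.E (Fin (b + (y + u + r n)))
          (fun U => f U (wq b 0) * f U (wq b (y + u + r i)))
          = ∑ i ∈ range (n + 1), X.k' b (y + (u + r i)) := by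
        refine sum_congr rfl fun i hi => ?_
        have := hle i hi
        rw [X.w2 (by omega) (by omega)]
        congr 1
        omega
      have e3 : ∑ i ∈ range (n + 1), X.E (Fin (b + (y + u + r n)))
          (fun U => f U (tq b u) * f U (wq b (y + u + r i)))
          = ∑ i ∈ range (n + 1), X.k b (y + r i) := by
        refine sum_congr rfl fun i hi => ?_
        have := hle i hi
        rw [X.w1 (by omega) (by omega)]
        congr 1
        omega
      have e4 : ∑ i ∈ range (n + 1), X.E (Fin (b + (y + u + r n)))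
          (fun U => f U (wq b u) * f U (wq b (y + u + r i)))
          = ∑ i ∈ range (n + 1), X.k' b (y + r i) := by
        refine sum_congr rfl fun i hi => ?_
        have := hle i hi
        rw [X.w2 (by omega) (by omega)]
        congr 1
        omega
      have e5 : ∑ j ∈ range (n + 1), ∑ i ∈ range j, X.E (Fin (b + (y + u + r n)))
          (fun U => f U (wq b (y + u + r i)) * f U (wq b (y + u + r j)))
          = ∑ j ∈ range (n + 1), ∑ i ∈ range j, X.k' b (r j - r i) := by
        refine sum_congr rfl fun j hj => sum_congr rfl fun i hi => ?_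
        have h5 := hle j hj
        have h6 := mem_range.1 hj
        have h7 := mem_range.1 hi
        have h8 := hr i j h7 (by omega)
        rw [X.w2 (by omega) (by omega)]
        congr 1
        omega
      rw [e1, e2, e3, e4, e5] at h2
      rw [← hw, ← hQ] at h2
      linarith
    · intro U hU
      have h3 : f U (tq b 0) * f U (wq b 0) = 0 := by
        refine f_excl hU 0 b (by omega) (by omega) ?_ ?_
        · intro i j _ _ _ _
          unfold tq
          omega
        · intro i j _ _
          unfold tq wq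
          omega
      have h4 : f U (tq b u) * f U (wq b u) = 0 := by
        refine f_excl hU 0 b (by omega) (by omega) ?_ ?_
        · intro i j _ _ _ _
          unfold tq
          omega
        · intro i j _ _
          unfold tq wq
          omega
      have s1 := f_sq U (tq b 0)
      have s2 := f_sq U (wq b 0)
      have s3 := f_sq U (tq b u)
      have s4 := f_sq U (wq b u)
      generalize Zf n (fun i => wq b (y + u + r i)) U = Z at *
      generalize f U (tq b 0) = f1 at *
      generalize f U (wq b 0) = f2 at *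
      generalize f U (tq b u) = f3 at *
      generalize f U (wq b u) = f4 at *
      have e : 2 * (f1 + f2 + f3 + f4) + 16 * (Z * Z) - ((f1 + f2 - f3 - f4) ^ 2
          + 8 * (f1 * Z + f2 * Z + f3 * Z + f4 * Z)) = (f1 + f2 + f3 + f4 - 4 * Z) ^ 2 := by
        linear_combination (-2) * s1 + (-2) * s2 + (-2) * s3 + (-2) * s4 + (-4) * h3 + (-4) * h4
      have := sq_nonneg (f1 + f2 + f3 + f4 - 4 * Z)
      linarith
  have bk : ∀ c, Bdd (fun y => X.k b (y + c)) := fun c => (X.k_bdd b).shift _
  have bk' : ∀ c, Bdd (fun y => X.k' b (y + c)) := fun c => (X.k'_bdd b).shift _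
  have B1 : Bdd (fun y => ∑ i ∈ range (n + 1), X.k b (y + (u + r i))) :=
    bdd_sum _ (fun i y => X.k b (y + (u + r i))) fun i _ => bk _
  have B2 : Bdd (fun y => ∑ i ∈ range (n + 1), X.k' b (y + (u + r i))) :=
    bdd_sum _ (fun i y => X.k' b (y + (u + r i))) fun i _ => bk' _
  have B3 : Bdd (fun y => ∑ i ∈ range (n + 1), X.k b (y + r i)) :=
    bdd_sum _ (fun i y => X.k b (y + r i)) fun i _ => bk _
  have B4 : Bdd (fun y => ∑ i ∈ range (n + 1), X.k' b (y + r i)) :=
    bdd_sum _ (fun i y => X.k' b (y + r i)) fun i _ => bk' _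
  have h3 := mean_mono ((bdd_const _).add (((((B1.smul w).add (B2.smul w)).add (B3.smul w)).add
    (B4.smul w)).smul 8)) (bdd_const _) h1
  rw [mean_add (bdd_const _) (((((B1.smul w).add (B2.smul w)).add (B3.smul w)).add
    (B4.smul w)).smul 8), mean_const, mean_const,
    mean_smul _ ((((B1.smul w).add (B2.smul w)).add (B3.smul w)).add (B4.smul w)),
    mean_add (((B1.smul w).add (B2.smul w)).add (B3.smul w)) (B4.smul w),
    mean_add ((B1.smul w).add (B2.smul w)) (B3.smul w), mean_add (B1.smul w) (B2.smul w),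
    mean_smul _ B1, mean_smul _ B2, mean_smul _ B3, mean_smul _ B4,
    mean_sum _ (fun i y => X.k b (y + (u + r i))) fun i _ => bk _,
    mean_sum _ (fun i y => X.k' b (y + (u + r i))) fun i _ => bk' _,
    mean_sum _ (fun i y => X.k b (y + r i)) fun i _ => bk _,
    mean_sum _ (fun i y => X.k' b (y + r i)) fun i _ => bk' _,
    sum_congr rfl fun i _ => mean_shift (u + r i) (X.k_bdd b),
    sum_congr rfl fun i _ => mean_shift (u + r i) (X.k'_bdd b),
    sum_congr rfl fun i _ => mean_shift (r i) (X.k_bdd b),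
    sum_congr rfl fun i _ => mean_shift (r i) (X.k'_bdd b)] at h3
  simp only [sum_const, card_range, nsmul_eq_mul] at h3
  push_cast at h3
  simp only [← mul_assoc w ((n : ℝ) + 1), hwn, one_mul] at h3
  unfold Fam.κ₁
  linarith

end Pool.Agent.TH635.BV
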