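import Mathlib
import Pool.Agent.TH635.BV.Def

set_option autoImplicit false

/-!
# The mean defect
-/

namespace Pool.Agent.TH635.BV

open Finset Filter Topology Pool.Agent.TH7.DH

variable (X : Fam)

lemma Fam.δ_abs (b u : ℕ) : |X.δ b u| ≤ 4 := by
  refine X.E_abs (by norm_num) fun U => ?_
  rcases f01 U (RR b) with h | h <;> rcases f01 U (DD b) with h' | h' <;>
    rcases f01 U (NL b) with h'' | h'' <;> rcases f01 U Top with h3 | h3 <;>
    rw [h, h', h'', h3] <;> norm_num

lemma Fam.w5 {M b u x : ℕ} (hu : u ≤ x) (hM : b + x ≤ M) :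
    X.E (Fin M) (fun U => (f U (tq b u) + f U (wq b u) - f U (tq b x) - f U (wq b x)) ^ 2)
      = X.δ b (x - u) := by
  refine X.quad (a := 0) (b := b) (c := b + u) (u := x - u) (by omega) (by omega)
    (Or.inl (by omega)) _ _ _ _ (RR b) (DD b) (NL b) Top ?_ ?_ ?_ ?_ ?_
  · intro i j hi hj
    unfold tq sh RR
    split_ifs <;> omega
  · intro i j hi hj
    unfold wq sh DD
    split_ifs <;> omega
  · intro i j hi hj
    unfold tq sh NL
    split_ifs <;> omega
  · intro i j hi hj
    simp only [Top, iff_true]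
    unfold wq sh
    split_ifs <;> omega
  · intro i j hi hj h
    unfold tq wq
    refine ⟨?_, ?_, ?_⟩ <;> omega

lemma pairsq (v : ℕ → ℝ) (m : ℕ) : ∑ j ∈ range m, ∑ i ∈ range j, (v i - v j) ^ 2
    = m * ∑ j ∈ range m, v j ^ 2 - (∑ j ∈ range m, v j) ^ 2 := by
  induction m with
  | zero => simp
  | succ m ih =>
    rw [sum_range_succ, ih, sum_range_succ (fun j => v j ^ 2), sum_range_succ v]
    have h : ∑ i ∈ range m, (v i - v m) ^ 2 = ∑ i ∈ range m, v i ^ 2
        - 2 * v m * ∑ i ∈ range m, v i + m * v m ^ 2 := by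
      have : ∀ i, (v i - v m) ^ 2 = v i ^ 2 - 2 * v m * v i + v m ^ 2 := fun i => by ring
      simp only [this, sum_add_distrib, sum_sub_distrib, ← mul_sum, sum_const, card_range,
        nsmul_eq_mul]
    rw [h]
    push_cast
    ring

lemma pairsq_le (v : ℕ → ℝ) (z : ℝ) (m : ℕ) : ∑ j ∈ range m, ∑ i ∈ range j, (v i - v j) ^ 2
    ≤ m * ∑ j ∈ range m, (v j - 2 * z) ^ 2 := by
  have h := pairsq (fun j => v j - 2 * z) m
  have e : ∀ i j, (v i - 2 * z - (v j - 2 * z)) ^ 2 = (v i - v j) ^ 2 := fun i j => by ring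
  simp only [e] at h
  rw [h]
  have := sq_nonneg (∑ j ∈ range m, (v j - 2 * z))
  linarith

theorem Fam.chain (hX : X.Bad) (b : ℕ) (hb : 1 ≤ b) (m : ℕ) (t : ℕ → ℕ)
    (ht : ∀ i j, i < j → j ≤ m → t i < t j) :
    ∑ j ∈ range (m + 1), ∑ i ∈ range j, X.δ b (t j - t i)
      ≤ ((m : ℝ) + 1) ^ 2 * (2 * (X.D - 2 * X.κ₁ b)) := by
  have hm0 : (0 : ℝ) < (m : ℝ) + 1 := by positivity
  refine le_of_forall_pos_le_add fun ε' hε' => ?_
  obtain ⟨ε, hε, hεε⟩ : ∃ ε : ℝ, 0 < ε ∧ ((m : ℝ) + 1) ^ 2 * (8 * ε) = ε' :=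
    ⟨ε' / (((m : ℝ) + 1) ^ 2 * 8), by positivity, by field_simp⟩
  have hk'0 : 0 ≤ mean (X.k' b) := by
    have h := mean_mono (bdd_const 0) (X.k'_bdd b) fun y => X.k'_nonneg hX b y
    rwa [mean_const] at h
  obtain ⟨n, hn⟩ := exists_nat_gt (X.D / ε)
  obtain ⟨r, hr, hs⟩ := exists_seq (X.k'_bdd b) hε n
  set w : ℝ := 1 / ((n : ℝ) + 1) with hw
  have hn0 : (0 : ℝ) < (n : ℝ) + 1 := by positivity
  have hwn : w * ((n : ℝ) + 1) = 1 := by rw [hw]; field_simp
  set Q : ℝ := (((n : ℝ) + 1) * X.D + 2 * ∑ j ∈ range (n + 1), ∑ i ∈ range j,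
    X.k' b (r j - r i)) / ((n : ℝ) + 1) ^ 2 with hQ
  have hQle : Q ≤ mean (X.k' b) + 2 * ε := by
    have h1 := dsum hs
    have h2 : X.D / ((n : ℝ) + 1) ≤ ε := by
      rw [div_lt_iff₀ (by positivity)] at hn
      rw [div_le_iff₀ hn0]
      nlinarith
    have h3 : 0 ≤ (mean (X.k' b) + ε) / ((n : ℝ) + 1) := by positivity
    have h4 : Q = X.D / ((n : ℝ) + 1) + 2 / ((n : ℝ) + 1) ^ 2 *
        ∑ j ∈ range (n + 1), ∑ i ∈ range j, X.k' b (r j - r i) := by
      rw [hQ]
      field_simp
    rw [h4]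
    linarith
  have h1 : ∀ y, ∑ j ∈ range (m + 1), ∑ i ∈ range j, X.δ b (t j - t i)
      ≤ ((m : ℝ) + 1) * ∑ j ∈ range (m + 1), ((X.D + X.D)
        + ((-4) * (w * ∑ i ∈ range (n + 1), X.k b (y + (t m - t j + r i))
          + w * ∑ i ∈ range (n + 1), X.k' b (y + (t m - t j + r i))) + 4 * Q)) := by
    intro y
    have hle : ∀ i ∈ range (n + 1), r i ≤ r n := fun i hi =>
      rmono hr (by have := mem_range.1 hi; omega) le_rfl
    have htle : ∀ i ∈ range (m + 1), t i ≤ t m := fun i hi =>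
      rmono ht (by have := mem_range.1 hi; omega) le_rfl
    have h2 := X.E_mono hX (ι := Fin (b + (y + t m + r n)))
      (Ψ := fun U => ∑ j ∈ range (m + 1), ∑ i ∈ range j,
        (f U (tq b (t i)) + f U (wq b (t i)) - f U (tq b (t j)) - f U (wq b (t j))) ^ 2)
      (Ψ' := fun U => ((m : ℝ) + 1) * ∑ j ∈ range (m + 1), ((f U (tq b (t j)) + f U (wq b (t j)))
        + ((-4) * (f U (tq b (t j)) * Zf n (fun i => wq b (y + t m + r i)) U
        + f U (wq b (t j)) * Zf n (fun i => wq b (y + t m + r i)) U)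
        + 4 * (Zf n (fun i => wq b (y + t m + r i)) U
          * Zf n (fun i => wq b (y + t m + r i)) U)))) ?_
    · have eL : X.E (Fin (b + (y + t m + r n))) (fun U => ∑ j ∈ range (m + 1), ∑ i ∈ range j,
          (f U (tq b (t i)) + f U (wq b (t i)) - f U (tq b (t j)) - f U (wq b (t j))) ^ 2)
          = ∑ j ∈ range (m + 1), ∑ i ∈ range j, X.δ b (t j - t i) := by
        rw [X.E_sum]
        refine sum_congr rfl fun j hj => ?_
        rw [X.E_sum]
        refine sum_congr rfl fun i hi => ?_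
        have h5 := htle j hj
        have h6 := ht i j (mem_range.1 hi) (by have := mem_range.1 hj; omega)
        exact X.w5 (by omega) (by omega)
      have e5 : ∑ j ∈ range (n + 1), ∑ i ∈ range j, X.E (Fin (b + (y + t m + r n)))
          (fun U => f U (wq b (y + t m + r i)) * f U (wq b (y + t m + r j)))
          = ∑ j ∈ range (n + 1), ∑ i ∈ range j, X.k' b (r j - r i) := by
        refine sum_congr rfl fun j hj => sum_congr rfl fun i hi => ?_
        have h5 := hle j hj
        have h6 := mem_range.1 hj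
        have h7 := mem_range.1 hi
        have h8 := hr i j h7 (by omega)
        rw [X.w2 (by omega) (by omega)]
        congr 1
        omega
      rw [eL, X.E_smul, X.E_sum] at h2
      refine h2.trans (le_of_eq ?_)
      congr 1
      refine sum_congr rfl fun j hj => ?_
      have h9 := htle j hj
      rw [X.E_add, X.E_add, X.E_add, X.E_smul, X.E_smul, X.E_add, X.E_f, X.E_f, X.E_fZ, X.E_fZ,
        X.E_ZZ, e5]
      have e1 : ∑ i ∈ range (n + 1), X.E (Fin (b + (y + t m + r n)))
          (fun U => f U (tq b (t j)) * f U (wq b (y + t m + r i)))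
          = ∑ i ∈ range (n + 1), X.k b (y + (t m - t j + r i)) := by
        refine sum_congr rfl fun i hi => ?_
        have := hle i hi
        rw [X.w1 (by omega) (by omega)]
        congr 1
        omega
      have e2 : ∑ i ∈ range (n + 1), X.E (Fin (b + (y + t m + r n)))
          (fun U => f U (wq b (t j)) * f U (wq b (y + t m + r i)))
          = ∑ i ∈ range (n + 1), X.k' b (y + (t m - t j + r i)) := by
        refine sum_congr rfl fun i hi => ?_
        have := hle i hi
        rw [X.w2 (by omega) (by omega)]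
        congr 1
        omega
      rw [e1, e2]
    · intro U hU
      have h3 : ∀ j, f U (tq b (t j)) * f U (wq b (t j)) = 0 := by
        intro j
        refine f_excl hU 0 b (by omega) (by omega) ?_ ?_
        · intro i j _ _ _ _
          unfold tq
          omega
        · intro i j _ _
          unfold tq wq
          omega
      have h4 := pairsq_le (fun j => f U (tq b (t j)) + f U (wq b (t j)))
        (Zf n (fun i => wq b (y + t m + r i)) U) (m + 1)
      refine le_trans (le_of_eq ?_) (h4.trans (le_of_eq ?_))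
      · refine sum_congr rfl fun j _ => sum_congr rfl fun i _ => ?_
        ring
      · push_cast
        congr 1
        refine sum_congr rfl fun j _ => ?_
        have s1 := f_sq U (tq b (t j))
        have s2 := f_sq U (wq b (t j))
        have s3 := h3 j
        linear_combination s1 + s2 + 2 * s3
  have bk : ∀ c, Bdd (fun y => X.k b (y + c)) := fun c => (X.k_bdd b).shift _
  have bk' : ∀ c, Bdd (fun y => X.k' b (y + c)) := fun c => (X.k'_bdd b).shift _
  have B1 : ∀ j, Bdd (fun y => ∑ i ∈ range (n + 1), X.k b (y + (t m - t j + r i))) := fun j =>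
    bdd_sum _ (fun i y => X.k b (y + (t m - t j + r i))) fun i _ => bk _
  have B2 : ∀ j, Bdd (fun y => ∑ i ∈ range (n + 1), X.k' b (y + (t m - t j + r i))) := fun j =>
    bdd_sum _ (fun i y => X.k' b (y + (t m - t j + r i))) fun i _ => bk' _
  have B3 : ∀ j, Bdd (fun y => (X.D + X.D)
        + ((-4) * (w * ∑ i ∈ range (n + 1), X.k b (y + (t m - t j + r i))
          + w * ∑ i ∈ range (n + 1), X.k' b (y + (t m - t j + r i))) + 4 * Q)) := fun j =>
    (bdd_const _).add (((((B1 j).smul w).add ((B2 j).smul w)).smul (-4)).add (bdd_const _))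
  have B4 : Bdd (fun y => ∑ j ∈ range (m + 1), ((X.D + X.D)
        + ((-4) * (w * ∑ i ∈ range (n + 1), X.k b (y + (t m - t j + r i))
          + w * ∑ i ∈ range (n + 1), X.k' b (y + (t m - t j + r i))) + 4 * Q))) :=
    bdd_sum _ (fun j y => (X.D + X.D)
        + ((-4) * (w * ∑ i ∈ range (n + 1), X.k b (y + (t m - t j + r i))
          + w * ∑ i ∈ range (n + 1), X.k' b (y + (t m - t j + r i))) + 4 * Q)) fun j _ => B3 j
  have h3 := mean_mono (bdd_const _) (B4.smul ((m : ℝ) + 1)) h1
  rw [mean_const, mean_smul _ B4, mean_sum _ (fun j y => (X.D + X.D)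
        + ((-4) * (w * ∑ i ∈ range (n + 1), X.k b (y + (t m - t j + r i))
          + w * ∑ i ∈ range (n + 1), X.k' b (y + (t m - t j + r i))) + 4 * Q)) fun j _ => B3 j]
    at h3
  have h5 : ∀ j ∈ range (m + 1), mean (fun y => (X.D + X.D)
        + ((-4) * (w * ∑ i ∈ range (n + 1), X.k b (y + (t m - t j + r i))
          + w * ∑ i ∈ range (n + 1), X.k' b (y + (t m - t j + r i))) + 4 * Q))
      = X.D + X.D + ((-4) * (X.κ₁ b + mean (X.k' b)) + 4 * Q) := by
    intro j _
    rw [mean_add (bdd_const _) (((((B1 j).smul w).add ((B2 j).smul w)).smul (-4)).add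
      (bdd_const _)), mean_const, mean_add ((((B1 j).smul w).add ((B2 j).smul w)).smul (-4))
      (bdd_const _), mean_const, mean_smul _ (((B1 j).smul w).add ((B2 j).smul w)),
      mean_add ((B1 j).smul w) ((B2 j).smul w), mean_smul _ (B1 j), mean_smul _ (B2 j),
      mean_sum _ (fun i y => X.k b (y + (t m - t j + r i))) fun i _ => bk _,
      mean_sum _ (fun i y => X.k' b (y + (t m - t j + r i))) fun i _ => bk' _,
      sum_congr rfl fun i _ => mean_shift (t m - t j + r i) (X.k_bdd b),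
      sum_congr rfl fun i _ => mean_shift (t m - t j + r i) (X.k'_bdd b)]
    simp only [sum_const, card_range, nsmul_eq_mul]
    push_cast
    simp only [← mul_assoc w ((n : ℝ) + 1), hwn, one_mul]
    rfl
  rw [sum_congr rfl h5, sum_const, card_range, nsmul_eq_mul] at h3
  push_cast at h3
  refine h3.trans ?_
  rw [← hεε]
  have h6 : ((m : ℝ) + 1) * (((m : ℝ) + 1) * (X.D + X.D + ((-4) * (X.κ₁ b + mean (X.k' b))
      + 4 * Q))) = ((m : ℝ) + 1) ^ 2 * (X.D + X.D + ((-4) * (X.κ₁ b + mean (X.k' b))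
      + 4 * Q)) := by ring
  rw [h6, ← mul_add]
  refine mul_le_mul_of_nonneg_left ?_ (by positivity)
  linarith

/-- a lower bound for double sums turns into an upper bound for the mean -/
lemma mean_of_chain {h : ℕ → ℝ} (hb : Bdd h) {c : ℝ}
    (hc : ∀ (m : ℕ) (t : ℕ → ℕ), (∀ i j, i < j → j ≤ m → t i < t j) →
      ∑ j ∈ range (m + 1), ∑ i ∈ range j, h (t j - t i) ≤ ((m : ℝ) + 1) ^ 2 * (2 * c)) :
    mean h ≤ 4 * c := by
  refine le_of_forall_pos_le_add fun ε hε => ?_
  obtain ⟨m, hm⟩ := exists_nat_gt (4 * |c| / (ε / 2) + 1)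
  have hm1 : (1 : ℝ) < m := by
    have : 0 ≤ 4 * |c| / (ε / 2) := by positivity
    linarith
  have hm0 : (0 : ℝ) < m := by linarith
  obtain ⟨t, ht, hs⟩ := exists_seq (hb.smul (-1)) (half_pos hε) m
  have h1 := hc m t ht
  have h2 : mean (fun n => (-1) * h n) = - mean h := by
    rw [mean_smul _ hb]
    ring
  have h3 : ∀ j ∈ range (m + 1), (j : ℝ) * (mean h - ε / 2) ≤ ∑ i ∈ range j, h (t j - t i) := by
    intro j hj
    have h4 := hs j (by have := mem_range.1 hj; omega)
    rw [h2, ← mul_sum] at h4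
    nlinarith
  have h5 := sum_le_sum h3
  rw [← sum_mul] at h5
  have h6 : ∑ j ∈ range (m + 1), (j : ℝ) = (m : ℝ) * (m + 1) / 2 := by
    have h7 := Finset.sum_range_id_mul_two (m + 1)
    have h9 : (∑ i ∈ range (m + 1), i) * 2 = (m + 1) * m := by
      rw [h7, Nat.add_sub_cancel]
    have h8 : ((∑ i ∈ range (m + 1), i : ℕ) : ℝ) * 2 = ((m + 1 : ℕ) : ℝ) * ((m : ℕ) : ℝ) := by
      exact_mod_cast h9
    push_cast at h8
    linarith
  rw [h6] at h5
  have h7 : (m : ℝ) * (m + 1) / 2 * (mean h - ε / 2) ≤ ((m : ℝ) + 1) ^ 2 * (2 * c) := h5.trans h1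
  have h8 : (m : ℝ) * (mean h - ε / 2) ≤ ((m : ℝ) + 1) * (4 * c) := by
    have hpos : (0 : ℝ) < (m + 1) / 2 := by positivity
    refine le_of_mul_le_mul_left ?_ hpos
    nlinarith
  have h9 : (m : ℝ) * (mean h - ε / 2 - 4 * c) ≤ m * (ε / 2) := by
    have h10 : 4 * c ≤ 4 * |c| := by
      have := le_abs_self c
      linarith
    have h11 : 4 * |c| ≤ m * (ε / 2) := by
      have h12 : 4 * |c| / (ε / 2) < m := by linarith
      rw [div_lt_iff₀ (by positivity)] at h12
      exact h12.le
    nlinarith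
  have h10 := le_of_mul_le_mul_left h9 hm0
  linarith

end Pool.Agent.TH635.BV
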