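import Mathlib
import Pool.Agent.TH635.BV.Items

set_option autoImplicit false

/-!
# The inequalities between the averages
-/

namespace Pool.Agent.TH635.BV

open Finset Filter Topology Pool.Agent.TH7.DH

variable (X : Fam)

lemma Zexcl {M n : ℕ} {q : ℕ → ℕ → ℕ → Prop} {U : ((Fin 2 → Fin M) → Prop) → Prop}
    {p : ℕ → ℕ → Prop} (h : ∀ i ≤ n, f U p * f U (q i) = 0) : Zf n q U * f U p = 0 := by
  unfold Zf
  rw [mul_assoc, sum_mul, sum_eq_zero, mul_zero]
  intro i hi
  rw [mul_comm]
  exact h i (by have := mem_range.1 hi; omega)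

theorem Fam.item1 (hX : X.Bad) (c : ℝ) : 2 * c * X.D ≤ X.κ + c ^ 2 * (1 - X.D) := by
  refine le_of_forall_pos_le_add fun ε hε => ?_
  obtain ⟨n, r, hr, hq⟩ := X.exists_r hX hε
  have h1 : ∀ y, 2 * c * X.D ≤ X.qv n r (y + 1) + c ^ 2 * (1 - X.D) := by
    intro y
    have h2 := X.E_mono hX (ι := Fin (0 + (y + 1 + r n)))
      (Ψ := fun U => (2 * c) * Zf n (fun i => qp 0 Bot (y + 1 + r i)) U)
      (Ψ' := fun U => Zf n (fun i => qp 0 Bot (y + 1 + r i)) U
        * Zf n (fun i => qp 0 Bot (y + 1 + r i)) U + c ^ 2 * (1 + (-1) * f U Bot)) ?_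
    · rw [X.E_smul, X.E_add, X.E_smul, X.E_add, X.E_smul, X.E_const, X.E_Z, X.E_f,
        X.E_nest hr Bot le_rfl (fun _ _ _ _ _ _ h => h)] at h2
      linarith
    · intro U hU
      have h3 : Zf n (fun i => qp 0 Bot (y + 1 + r i)) U * f U Bot = 0 := by
        refine Zexcl fun i hi => ?_
        have h4 := rmono hr hi le_rfl
        refine f_excl hU 0 (y + 1 + r i) (by omega) (by omega) (fun _ _ _ _ _ _ h => h) ?_
        intro x z hx hz
        simp only [qp, Bot, or_false, false_or]
        omega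
      have h4 := f_sq U Bot
      have e : Zf n (fun i => qp 0 Bot (y + 1 + r i)) U * Zf n (fun i => qp 0 Bot (y + 1 + r i)) U
          + c ^ 2 * (1 + (-1) * f U Bot) - (2 * c) * Zf n (fun i => qp 0 Bot (y + 1 + r i)) U
          = (Zf n (fun i => qp 0 Bot (y + 1 + r i)) U - c * (1 - f U Bot)) ^ 2 := by
        linear_combination (-2 * c) * h3 + (-c ^ 2) * h4
      have := sq_nonneg (Zf n (fun i => qp 0 Bot (y + 1 + r i)) U - c * (1 - f U Bot))
      linarith
  have h2 := mean_mono (bdd_const _) (((X.qv_bdd n r).shift 1).add (bdd_const _)) h1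
  rw [mean_const, mean_add ((X.qv_bdd n r).shift 1) (bdd_const _), mean_shift 1 (X.qv_bdd n r),
    mean_const] at h2
  linarith

noncomputable def Fam.Km (b : ℕ) : ℝ := mean (X.K b)
noncomputable def Fam.gm (b : ℕ) : ℝ := mean (X.g b)
lemma Fam.Km_bdd : Bdd X.Km := ⟨1, fun _ => mean_abs fun _ => X.E_pair_abs _ _⟩
lemma Fam.gm_bdd : Bdd X.gm := ⟨1, fun _ => mean_abs fun _ => X.E_pair_abs _ _⟩

lemma Fam.disj {M c x x' : ℕ} (h1 : x ≤ c) (h2 : c + x' ≤ M) :
    X.E (Fin M) (fun U => f U (qp 0 Bot x) * f U (qp c Bot x')) = X.K x x' := by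
  refine X.pair (a := 0) (b := x) (c := c) (u := x') (by omega) (by omega)
    (Or.inl (by omega)) _ _ (LL x) (RR x) ?_ ?_ ?_
  · intro i j hi hj
    simp only [qp, Bot, or_false, LL]
    unfold sh
    split_ifs <;> omega
  · intro i j hi hj
    simp only [qp, Bot, or_false, RR]
    unfold sh
    split_ifs <;> omega
  · intro i j hi hj h
    simp only [qp, Bot, or_false]
    omega

theorem Fam.item2 (hX : X.Bad) : mean X.Km ≤ X.κ := by
  refine le_of_forall_pos_le_add fun ε hε => ?_
  obtain ⟨n, r, hr, hq⟩ := X.exists_r hX hε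
  set w : ℝ := 1 / ((n : ℝ) + 1) with hw
  have hn : (0 : ℝ) < (n : ℝ) + 1 := by positivity
  have hwn : w * ((n : ℝ) + 1) = 1 := by rw [hw]; field_simp
  have h1 : ∀ y y', 2 * (w * (w * ∑ i ∈ range (n + 1), ∑ j ∈ range (n + 1),
      X.K (y + r i) (y' + r j))) ≤ X.qv n r y + X.qv n r y' := by
    intro y y'
    have h2 := X.E_mono hX (ι := Fin ((y + r n) + (y' + r n)))
      (Ψ := fun U => 2 * (Zf n (fun i => qp 0 Bot (y + r i)) U
        * Zf n (fun i => qp (y + r n) Bot (y' + r i)) U))
      (Ψ' := fun U => Zf n (fun i => qp 0 Bot (y + r i)) U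
        * Zf n (fun i => qp 0 Bot (y + r i)) U + Zf n (fun i => qp (y + r n) Bot (y' + r i)) U
        * Zf n (fun i => qp (y + r n) Bot (y' + r i)) U) ?_
    · rw [X.E_smul, X.E_add, X.E_nest hr Bot (by omega) (fun _ _ _ _ _ _ h => h),
        X.E_nest hr Bot (by omega) (fun _ _ _ _ _ _ h => h), X.E_ZW] at h2
      have h3 : ∑ i ∈ range (n + 1), ∑ j ∈ range (n + 1),
          X.E (Fin ((y + r n) + (y' + r n))) (fun U => f U (qp 0 Bot (y + r i))
            * f U (qp (y + r n) Bot (y' + r j)))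
          = ∑ i ∈ range (n + 1), ∑ j ∈ range (n + 1), X.K (y + r i) (y' + r j) := by
        refine sum_congr rfl fun i hi => sum_congr rfl fun j hj => ?_
        have hi' := mem_range.1 hi
        have hj' := mem_range.1 hj
        have e1 := rmono hr (i := i) (j := n) (by omega) le_rfl
        have e2 := rmono hr (i := j) (j := n) (by omega) le_rfl
        exact X.disj (by omega) (by omega)
      rw [h3] at h2
      exact h2
    · intro U hU
      have := sq_nonneg (Zf n (fun i => qp 0 Bot (y + r i)) U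
        - Zf n (fun i => qp (y + r n) Bot (y' + r i)) U)
      nlinarith
  have h2 : ∀ y, 2 * (w * ∑ i ∈ range (n + 1), X.Km (y + r i))
      ≤ X.qv n r y + mean (X.qv n r) := by
    intro y
    have b1 : ∀ i j, Bdd (fun y' => X.K (y + r i) (y' + r j)) := fun i j => (X.K_bdd _).shift _
    have b2 : ∀ i, Bdd (fun y' => ∑ j ∈ range (n + 1), X.K (y + r i) (y' + r j)) := fun i =>
      bdd_sum _ (fun j y' => X.K (y + r i) (y' + r j)) fun j _ => b1 i j
    have b3 : Bdd (fun y' => ∑ i ∈ range (n + 1), ∑ j ∈ range (n + 1),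
        X.K (y + r i) (y' + r j)) :=
      bdd_sum _ (fun i y' => ∑ j ∈ range (n + 1), X.K (y + r i) (y' + r j)) fun i _ => b2 i
    have h3 := mean_mono (((b3.smul w).smul w).smul 2) ((bdd_const _).add (X.qv_bdd n r))
      (fun y' => h1 y y')
    rw [mean_smul _ ((b3.smul w).smul w), mean_smul _ (b3.smul w), mean_smul _ b3,
      mean_add (bdd_const _) (X.qv_bdd n r), mean_const,
      mean_sum _ (fun i y' => ∑ j ∈ range (n + 1), X.K (y + r i) (y' + r j)) fun i _ => b2 i] at h3
    have h4 : ∑ i ∈ range (n + 1), mean (fun y' => ∑ j ∈ range (n + 1), X.K (y + r i) (y' + r j))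
        = ((n : ℝ) + 1) * ∑ i ∈ range (n + 1), X.Km (y + r i) := by
      rw [mul_sum]
      refine sum_congr rfl fun i _ => ?_
      rw [mean_sum _ (fun j y' => X.K (y + r i) (y' + r j)) fun j _ => b1 i j,
        sum_congr rfl fun j _ => mean_shift (r j) (X.K_bdd _), sum_const, card_range, nsmul_eq_mul]
      push_cast
      rfl
    rw [h4] at h3
    have h5 : 2 * (w * (w * (((n : ℝ) + 1) * ∑ i ∈ range (n + 1), X.Km (y + r i))))
        = 2 * (w * ∑ i ∈ range (n + 1), X.Km (y + r i)) := by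
      rw [← mul_assoc w ((n : ℝ) + 1), hwn, one_mul]
    rw [h5] at h3
    exact h3
  have b4 : ∀ i, Bdd (fun y => X.Km (y + r i)) := fun i => X.Km_bdd.shift _
  have b5 : Bdd (fun y => ∑ i ∈ range (n + 1), X.Km (y + r i)) :=
    bdd_sum _ (fun i y => X.Km (y + r i)) fun i _ => b4 i
  have h3 := mean_mono ((b5.smul w).smul 2) ((X.qv_bdd n r).add (bdd_const _)) h2
  rw [mean_smul _ (b5.smul w), mean_smul _ b5, mean_add (X.qv_bdd n r) (bdd_const _), mean_const,
    mean_sum _ (fun i y => X.Km (y + r i)) fun i _ => b4 i,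
    sum_congr rfl fun i _ => mean_shift (r i) X.Km_bdd, sum_const, card_range, nsmul_eq_mul] at h3
  push_cast at h3
  rw [← mul_assoc w ((n : ℝ) + 1), hwn, one_mul] at h3
  linarith

theorem Fam.item3 (hX : X.Bad) (b : ℕ) (hb : 1 ≤ b) :
    2 / 5 * X.gm b ≤ X.κ + 4 / 25 - 19 / 25 * X.D := by
  refine le_of_forall_pos_le_add fun ε hε => ?_
  obtain ⟨n, r, hr, hq⟩ := X.exists_r hX hε
  set w : ℝ := 1 / ((n : ℝ) + 1) with hw
  have hn : (0 : ℝ) < (n : ℝ) + 1 := by positivity
  have hwn : w * ((n : ℝ) + 1) = 1 := by rw [hw]; field_simp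
  have h1 : ∀ y, 4 / 5 * X.D + 2 / 5 * (w * ∑ i ∈ range (n + 1), X.g b (y + (1 + r i)))
      ≤ X.qv n r (y + 1) + (4 / 25 + 1 / 5 * X.D + (-4 / 25) * X.D) := by
    intro y
    have h2 := X.E_mono hX (ι := Fin (b + (y + 1 + r n)))
      (Ψ := fun U => 4 / 5 * Zf n (fun i => qp b (LL b) (y + 1 + r i)) U
        + 2 / 5 * (Zf n (fun i => qp b (LL b) (y + 1 + r i)) U * f U Bot))
      (Ψ' := fun U => Zf n (fun i => qp b (LL b) (y + 1 + r i)) U
        * Zf n (fun i => qp b (LL b) (y + 1 + r i)) U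
        + (4 / 25 + 1 / 5 * f U Bot + (-4 / 25) * f U (LL b))) ?_
    · rw [X.E_add, X.E_smul, X.E_smul, X.E_add, X.E_add, X.E_add, X.E_smul, X.E_smul, X.E_const,
        X.E_Z, X.E_f, X.E_f, X.E_Zf, X.E_nest hr (LL b) le_rfl
          (fun i j h _ _ _ h' => by unfold LL at h'; omega)] at h2
      have h3 : ∑ i ∈ range (n + 1),
          X.E (Fin (b + (y + 1 + r n))) (fun U => f U (qp b (LL b) (y + 1 + r i)) * f U Bot)
          = ∑ i ∈ range (n + 1), X.g b (y + (1 + r i)) := by
        refine sum_congr rfl fun i hi => ?_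
        have hi' := mem_range.1 hi
        have e1 := rmono hr (i := i) (j := n) (by omega) le_rfl
        refine X.pair (a := 0) (b := b) (c := b) (u := y + (1 + r i)) (by omega) (by omega)
          (Or.inl (by omega)) _ _ (DD b) Bot ?_ ?_ ?_
        · intro i j hi hj
          unfold qp sh DD LL
          split_ifs <;> omega
        · intro i j hi hj
          unfold Bot
          exact Iff.rfl
        · intro i j hi hj h
          simp only [qp, Bot, LL, iff_false]
          omega
      rw [h3] at h2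
      exact h2
    · intro U hU
      have h3 : Zf n (fun i => qp b (LL b) (y + 1 + r i)) U * f U (LL b) = 0 := by
        refine Zexcl fun i hi => ?_
        have h4 := rmono hr hi le_rfl
        refine f_excl hU b (b + (y + 1 + r i)) (by omega) (by omega)
          (fun i j h _ _ _ h' => by unfold LL at h'; omega) ?_
        intro x z hx hz
        unfold qp LL
        omega
      have h4 : f U Bot * f U (LL b) = 0 := by
        refine f_excl hU 0 b (by omega) (by omega) (fun _ _ _ _ _ _ h => h) ?_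
        intro x z hx hz
        simp only [LL, Bot, false_or]
        omega
      have h5 := f_sq U Bot
      have h6 := f_sq U (LL b)
      generalize Zf n (fun i => qp b (LL b) (y + 1 + r i)) U = Z at *
      generalize f U Bot = F at *
      generalize f U (LL b) = G at *
      have e : Z * Z + (4 / 25 + 1 / 5 * F + (-4 / 25) * G) - (4 / 5 * Z + 2 / 5 * (Z * F))
          = (Z - (2 / 5 + F / 5 - 2 / 5 * G)) ^ 2 := by
        linear_combination (-1 / 25) * h5 + (-4 / 25) * h6 + (-4 / 5) * h3 + (4 / 25) * h4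
      have := sq_nonneg (Z - (2 / 5 + F / 5 - 2 / 5 * G))
      linarith
  have b4 : ∀ i, Bdd (fun y => X.g b (y + (1 + r i))) := fun i => (X.g_bdd b).shift _
  have b5 : Bdd (fun y => ∑ i ∈ range (n + 1), X.g b (y + (1 + r i))) :=
    bdd_sum _ (fun i y => X.g b (y + (1 + r i))) fun i _ => b4 i
  have h3 := mean_mono ((bdd_const _).add ((b5.smul w).smul (2 / 5)))
    (((X.qv_bdd n r).shift 1).add (bdd_const _)) h1
  rw [mean_add (bdd_const _) ((b5.smul w).smul _), mean_const, mean_smul _ (b5.smul w),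
    mean_smul _ b5, mean_add ((X.qv_bdd n r).shift 1) (bdd_const _), mean_const,
    mean_shift 1 (X.qv_bdd n r),
    mean_sum _ (fun i y => X.g b (y + (1 + r i))) fun i _ => b4 i,
    sum_congr rfl fun i _ => mean_shift (1 + r i) (X.g_bdd b), sum_const, card_range,
    nsmul_eq_mul] at h3
  push_cast at h3
  rw [← mul_assoc w ((n : ℝ) + 1), hwn, one_mul] at h3
  unfold Fam.gm
  linarith

end Pool.Agent.TH635.BV
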