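import Mathlib
import Pool.Agent.TH635.BV.Ineq
import Pool.Agent.TH635.BV.Def

set_option autoImplicit false

/-!
# The union bound
-/

namespace Pool.Agent.TH635.BV

open Finset Filter Topology Pool.Agent.TH7.DH

/-- the indicator of: not the base, and an even number of the three sets -/
def ev (w a b c : ℝ) : ℝ :=
  1 - w - a - b - c + 2 * a * b + 2 * a * c + 2 * b * c - 4 * a * b * c

lemma stepA {w a b c z v u : ℝ} (hw : w = 0 ∨ w = 1) (ha : a = 0 ∨ a = 1) (hb : b = 0 ∨ b = 1)
    (hc : c = 0 ∨ c = 1) (hz : z = 0 ∨ z = 1) (hv : v = 0 ∨ v = 1) (hu : u = 0 ∨ u = 1)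
    (h4 : a * z = 0) (h5 : b * z = 0) (h6 : v * c = 0) (h7 : u * c = 0) :
    ev w a b c + ((a + z - v - c) + (b + z - u - c)) ≤ 1 + (-1) * w + (-1) * a + (-1) * b
      + (-1) * c + 2 * (a * b) + ((a + z - v - c) ^ 2 + (b + z - u - c) ^ 2) := by
  unfold ev
  rcases hc with rfl | rfl
  · have h1 : 0 ≤ (a + z - v) ^ 2 - (a + z - v) := by
      rcases ha with rfl | rfl <;> rcases hz with rfl | rfl <;> rcases hv with rfl | rfl <;> norm_num
    have h2 : 0 ≤ (b + z - u) ^ 2 - (b + z - u) := by
      rcases hb with rfl | rfl <;> rcases hz with rfl | rfl <;> rcases hu with rfl | rfl <;> norm_num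
    nlinarith
  · have h8 : v = 0 := by linarith
    have h9 : u = 0 := by linarith
    subst h8 h9
    rcases ha with rfl | rfl <;> rcases hb with rfl | rfl <;> rcases hz with rfl | rfl <;>
      first
      | linarith
      | (norm_num; done)
      | (norm_num; linarith)

lemma ev_nonneg {w a b c : ℝ} (hw : w = 0 ∨ w = 1) (ha : a = 0 ∨ a = 1) (hb : b = 0 ∨ b = 1)
    (hc : c = 0 ∨ c = 1) (h1 : w * a = 0) (h2 : w * b = 0) (h3 : w * c = 0) :
    0 ≤ ev w a b c := by
  unfold ev
  rcases hw with rfl | rfl
  · rcases ha with rfl | rfl <;> rcases hb with rfl | rfl <;> rcases hc with rfl | rfl <;> norm_num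
  · have e1 : a = 0 := by linarith
    have e2 : b = 0 := by linarith
    have e3 : c = 0 := by linarith
    subst e1 e2 e3
    norm_num

lemma stepB {w w' a b c a' b' c' : ℝ} (hw : w = 0 ∨ w = 1) (hw' : w' = 0 ∨ w' = 1)
    (ha : a = 0 ∨ a = 1) (hb : b = 0 ∨ b = 1) (hc : c = 0 ∨ c = 1)
    (ha' : a' = 0 ∨ a' = 1) (hb' : b' = 0 ∨ b' = 1) (hc' : c' = 0 ∨ c' = 1)
    (h0 : w * w' = 0) (h1 : w * a = 0) (h2 : w * b = 0) (h3 : w * c = 0)
    (h1' : w' * a' = 0) (h2' : w' * b' = 0) (h3' : w' * c' = 0)
    (e1 : a * a' = 0) (e2 : b * b' = 0) (e3 : c * c' = 0) :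
    1 + (-1) * w + (-1) * w' ≤
      (1 + (-1) * w + (-1) * w' + (-1) * a + (-1) * a' + w' * a + a' * w)
      + (1 + (-1) * w + (-1) * w' + (-1) * b + (-1) * b' + w' * b + b' * w)
      + (1 + (-1) * w + (-1) * w' + (-1) * c + (-1) * c' + w' * c + c' * w)
      + ev w a b c + ev w' a' b' c' := by
  have p1 := ev_nonneg hw ha hb hc h1 h2 h3
  have p2 := ev_nonneg hw' ha' hb' hc' h1' h2' h3'
  rcases hw with rfl | rfl
  · rcases hw' with rfl | rfl
    · have q1 : 0 ≤ 1 - a - a' := by
        rcases ha with rfl | rfl <;> rcases ha' with rfl | rfl <;>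
          linarith
      have q2 : 0 ≤ 1 - b - b' := by
        rcases hb with rfl | rfl <;> rcases hb' with rfl | rfl <;>
          linarith
      have q3 : 0 ≤ 1 - c - c' := by
        rcases hc with rfl | rfl <;> rcases hc' with rfl | rfl <;>
          linarith
      by_cases r1 : a + a' = 1
      · by_cases r2 : b + b' = 1
        · by_cases r3 : c + c' = 1
          · have g1 : a' = 1 - a := by linarith
            have g2 : b' = 1 - b := by linarith
            have g3 : c' = 1 - c := by linarith
            subst g1 g2 g3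
            unfold ev
            rcases ha with rfl | rfl <;> rcases hb with rfl | rfl <;> rcases hc with rfl | rfl <;>
              norm_num
          · have r4 : 1 - c - c' = 1 := by
              rcases hc with rfl | rfl <;> rcases hc' with rfl | rfl <;>
                first
                | linarith
                | exact absurd (by norm_num) r3
            linarith
        · have r4 : 1 - b - b' = 1 := by
            rcases hb with rfl | rfl <;> rcases hb' with rfl | rfl <;>
              first
              | linarith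
              | exact absurd (by norm_num) r2
          linarith
      · have r4 : 1 - a - a' = 1 := by
          rcases ha with rfl | rfl <;> rcases ha' with rfl | rfl <;>
            first
            | linarith
            | exact absurd (by norm_num) r1
        linarith
    · have g1 : a' = 0 := by linarith
      have g2 : b' = 0 := by linarith
      have g3 : c' = 0 := by linarith
      subst g1 g2 g3
      linarith
  · have g0 : w' = 0 := by linarith
    have g1 : a = 0 := by linarith
    have g2 : b = 0 := by linarith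
    have g3 : c = 0 := by linarith
    subst g0 g1 g2 g3
    linarith

variable (X : Fam)

/-- square of the interval `[a, b)` -/
def sI (a b : ℕ) : ℕ → ℕ → Prop := fun i j => a ≤ i ∧ i < b ∧ a ≤ j ∧ j < b
/-- cross cells of `[a, b)` and `[b, c)` -/
def cI (a b c : ℕ) : ℕ → ℕ → Prop := fun i j =>
  (a ≤ i ∧ i < b ∧ b ≤ j ∧ j < c) ∨ (a ≤ j ∧ j < b ∧ b ≤ i ∧ i < c)

/-- base pattern with the first `β` indices: empty or the square -/
def bs (t : ℕ) (β : ℕ) : ℕ → ℕ → Prop := fun i j => t = 1 ∧ i < β ∧ j < β

def P1 (t : ℕ) (β b s : ℕ) : ℕ → ℕ → Prop := fun i j => bs t β i j ∨ sI β (β + b) i j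
def P2 (t : ℕ) (β b s : ℕ) : ℕ → ℕ → Prop := fun i j =>
  bs t β i j ∨ sI (β + b) (β + b + s) i j
def P12 (t : ℕ) (β b s : ℕ) : ℕ → ℕ → Prop := fun i j => bs t β i j ∨ sI β (β + b + s) i j
def PZ (t : ℕ) (β b s : ℕ) : ℕ → ℕ → Prop := fun i j =>
  bs t β i j ∨ sI β (β + b) i j ∨ sI (β + b) (β + b + s) i j
def PV (t : ℕ) (β b s : ℕ) : ℕ → ℕ → Prop := fun i j =>
  bs t β i j ∨ sI β (β + b) i j ∨ cI β (β + b) (β + b + s) i j
def PU (t : ℕ) (β b s : ℕ) : ℕ → ℕ → Prop := fun i j =>
  bs t β i j ∨ sI (β + b) (β + b + s) i j ∨ cI β (β + b) (β + b + s) i j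

theorem Fam.evE (hX : X.Bad) (t : ℕ) (β b s : ℕ) (hb : 1 ≤ b) (hs : 1 ≤ s) :
    X.E (Fin (β + b + s)) (fun U => ev (f U (bs t β)) (f U (P1 t β b s)) (f U (P2 t β b s))
      (f U (P12 t β b s))) ≤ 1 - 4 * X.D + 2 * X.K b s + (X.δ s b + X.δ b s) := by
  have h2 := X.E_mono hX (ι := Fin (β + b + s))
    (Ψ := fun U => ev (f U (bs t β)) (f U (P1 t β b s)) (f U (P2 t β b s)) (f U (P12 t β b s))
      + ((f U (P1 t β b s) + (f U (PZ t β b s) + ((-1) * f U (PV t β b s)
          + (-1) * f U (P12 t β b s))))
        + (f U (P2 t β b s) + (f U (PZ t β b s) + ((-1) * f U (PU t β b s)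
          + (-1) * f U (P12 t β b s))))))
    (Ψ' := fun U => 1 + (-1) * f U (bs t β) + (-1) * f U (P1 t β b s) + (-1) * f U (P2 t β b s)
      + (-1) * f U (P12 t β b s) + 2 * (f U (P1 t β b s) * f U (P2 t β b s))
      + ((f U (P1 t β b s) + f U (PZ t β b s) - f U (PV t β b s) - f U (P12 t β b s)) ^ 2
      + (f U (P2 t β b s) + f U (PZ t β b s) - f U (PU t β b s) - f U (P12 t β b s)) ^ 2)) ?_
  · have e1 : X.E (Fin (β + b + s)) (fun U => f U (P1 t β b s) * f U (P2 t β b s)) = X.K b s := by
      refine X.pair (a := β) (b := b) (c := β + b) (u := s) (by omega) (by omega)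
        (Or.inl (by omega)) _ _ (LL b) (RR b) ?_ ?_ ?_
      · intro i j hi hj
        unfold P1 bs sI sh LL
        split_ifs <;> omega
      · intro i j hi hj
        unfold P2 bs sI sh RR
        split_ifs <;> omega
      · intro i j hi hj h
        unfold P1 P2 bs sI
        omega
    have e2 : X.E (Fin (β + b + s)) (fun U => (f U (P1 t β b s) + f U (PZ t β b s)
        - f U (PV t β b s) - f U (P12 t β b s)) ^ 2) = X.δ s b := by
      refine X.quad (a := β + b) (b := s) (c := β) (u := b) (by omega) (by omega)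
        (Or.inr (by omega)) _ _ _ _ (RR s) (DD s) (NL s) Top ?_ ?_ ?_ ?_ ?_
      · intro i j hi hj
        unfold P1 bs sI sh RR
        split_ifs <;> omega
      · intro i j hi hj
        unfold PZ bs sI sh DD
        split_ifs <;> omega
      · intro i j hi hj
        unfold PV bs sI cI sh NL
        split_ifs <;> omega
      · intro i j hi hj
        simp only [Top, iff_true]
        unfold P12 bs sI sh
        split_ifs <;> omega
      · intro i j hi hj h
        unfold P1 PZ PV P12 bs sI cI
        refine ⟨?_, ?_, ?_⟩ <;> omega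
    have e3 : X.E (Fin (β + b + s)) (fun U => (f U (P2 t β b s) + f U (PZ t β b s)
        - f U (PU t β b s) - f U (P12 t β b s)) ^ 2) = X.δ b s := by
      refine X.quad (a := β) (b := b) (c := β + b) (u := s) (by omega) (by omega)
        (Or.inl (by omega)) _ _ _ _ (RR b) (DD b) (NL b) Top ?_ ?_ ?_ ?_ ?_
      · intro i j hi hj
        unfold P2 bs sI sh RR
        split_ifs <;> omega
      · intro i j hi hj
        unfold PZ bs sI sh DD
        split_ifs <;> omega
      · intro i j hi hj
        unfold PU bs sI cI sh NL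
        split_ifs <;> omega
      · intro i j hi hj
        simp only [Top, iff_true]
        unfold P12 bs sI sh
        split_ifs <;> omega
      · intro i j hi hj h
        unfold P2 PZ PU P12 bs sI cI
        refine ⟨?_, ?_, ?_⟩ <;> omega
    simp only [X.E_add, X.E_smul, X.E_const, X.E_f] at h2
    rw [e1, e2, e3] at h2
    linarith
  · intro U hU
    have h4 : f U (P1 t β b s) * f U (PZ t β b s) = 0 := by
      refine f_excl hU (β + b) (β + b + s) (by omega) (by omega) ?_ ?_
      · intro i j _ _ _ _
        unfold P1 bs sI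
        omega
      · intro i j _ _
        unfold P1 PZ bs sI
        omega
    have h5 : f U (P2 t β b s) * f U (PZ t β b s) = 0 := by
      refine f_excl hU β (β + b) (by omega) (by omega) ?_ ?_
      · intro i j _ _ _ _
        unfold P2 bs sI
        omega
      · intro i j _ _
        unfold P2 PZ bs sI
        omega
    have h6 : f U (PV t β b s) * f U (P12 t β b s) = 0 := by
      refine f_excl hU (β + b) (β + b + s) (by omega) (by omega) ?_ ?_
      · intro i j _ _ _ _
        unfold PV bs sI cI
        omega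
      · intro i j _ _
        unfold PV P12 bs sI cI
        omega
    have h7 : f U (PU t β b s) * f U (P12 t β b s) = 0 := by
      refine f_excl hU β (β + b) (by omega) (by omega) ?_ ?_
      · intro i j _ _ _ _
        unfold PU bs sI cI
        omega
      · intro i j _ _
        unfold PU P12 bs sI cI
        omega
    have := stepA (f01 U (bs t β)) (f01 U (P1 t β b s)) (f01 U (P2 t β b s))
      (f01 U (P12 t β b s)) (f01 U (PZ t β b s)) (f01 U (PV t β b s)) (f01 U (PU t β b s))
      h4 h5 h6 h7
    linarith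

end Pool.Agent.TH635.BV
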