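import Mathlib
import Pool.Agent.TH635.BV.Union
import Pool.Agent.TH635.BV.Chain

set_option autoImplicit false

/-!
# Families of subsets of `[N]^2` without a planted pair have density less than `0.3223`
-/

namespace Pool.Agent.TH635.BV

open Finset Filter Topology Pool.Agent.TH7.DH

variable (X : Fam)

theorem Fam.item3g (hX : X.Bad) (l m : ℝ) (b : ℕ) (hb : 1 ≤ b) :
    2 * l * X.D + 2 * (m - l) * X.gm b ≤ X.κ + (l ^ 2 + (m ^ 2 - l ^ 2) * X.D
      + (-l ^ 2) * X.D) := by
  refine le_of_forall_pos_le_add fun ε hε => ?_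
  obtain ⟨n, r, hr, hq⟩ := X.exists_r hX hε
  set w : ℝ := 1 / ((n : ℝ) + 1) with hw
  have hn : (0 : ℝ) < (n : ℝ) + 1 := by positivity
  have hwn : w * ((n : ℝ) + 1) = 1 := by rw [hw]; field_simp
  have h1 : ∀ y, 2 * l * X.D + 2 * (m - l) * (w * ∑ i ∈ range (n + 1), X.g b (y + (1 + r i)))
      ≤ X.qv n r (y + 1) + (l ^ 2 + (m ^ 2 - l ^ 2) * X.D + (-l ^ 2) * X.D) := by
    intro y
    have h2 := X.E_mono hX (ι := Fin (b + (y + 1 + r n)))
      (Ψ := fun U => 2 * l * Zf n (fun i => qp b (LL b) (y + 1 + r i)) U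
        + 2 * (m - l) * (Zf n (fun i => qp b (LL b) (y + 1 + r i)) U * f U Bot))
      (Ψ' := fun U => Zf n (fun i => qp b (LL b) (y + 1 + r i)) U
        * Zf n (fun i => qp b (LL b) (y + 1 + r i)) U
        + (l ^ 2 + (m ^ 2 - l ^ 2) * f U Bot + (-l ^ 2) * f U (LL b))) ?_
    · rw [X.E_add, X.E_smul, X.E_smul, X.E_add, X.E_add, X.E_add, X.E_smul, X.E_smul, X.E_const,
        X.E_Z, X.E_f, X.E_f, X.E_Zf, X.E_nest hr (LL b) le_rfl
          (fun i j h _ _ _ h' => by unfold LL at h'; omega)] at h2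
      have h3 : ∑ i ∈ range (n + 1),
          X.E (Fin (b + (y + 1 + r n))) (fun U => f U (qp b (LL b) (y + 1 + r i)) * f U Bot)
          = ∑ i ∈ range (n + 1), X.g b (y + (1 + r i)) := by
        refine sum_congr rfl fun i hi => ?_
        have hi' := mem_range.1 hi
        have e1 := rmono hr (i := i) (j := n) (by omega) le_rfl
        refine X.pair (a := 0) (b := b) (c := b) (u := y + (1 + r i)) (by omega) (by omega)
          (Or.inl (by omega)) _ _ (DD b) Bot ?_ ?_ ?_
        · intro i j hi hj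
          unfold qp sh DD LL
          split_ifs <;> omega
        · intro i j hi hj
          unfold Bot
          exact Iff.rfl
        · intro i j hi hj h
          simp only [qp, Bot, LL, iff_false]
          omega
      rw [h3] at h2
      exact h2
    · intro U hU
      have h3 : Zf n (fun i => qp b (LL b) (y + 1 + r i)) U * f U (LL b) = 0 := by
        refine Zexcl fun i hi => ?_
        have h4 := rmono hr hi le_rfl
        refine f_excl hU b (b + (y + 1 + r i)) (by omega) (by omega)
          (fun i j h _ _ _ h' => by unfold LL at h'; omega) ?_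
        intro x z hx hz
        unfold qp LL
        omega
      have h4 : f U Bot * f U (LL b) = 0 := by
        refine f_excl hU 0 b (by omega) (by omega) (fun _ _ _ _ _ _ h => h) ?_
        intro x z hx hz
        simp only [LL, Bot, false_or]
        omega
      have h5 := f_sq U Bot
      have h6 := f_sq U (LL b)
      generalize Zf n (fun i => qp b (LL b) (y + 1 + r i)) U = Z at *
      generalize f U Bot = F at *
      generalize f U (LL b) = G at *
      have e : Z * Z + (l ^ 2 + (m ^ 2 - l ^ 2) * F + (-l ^ 2) * G)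
          - (2 * l * Z + 2 * (m - l) * (Z * F)) = (Z - (l + (m - l) * F - l * G)) ^ 2 := by
        linear_combination (-(m - l) ^ 2) * h5 + (-l ^ 2) * h6 + (-2 * l) * h3
          + (2 * l * (m - l)) * h4
      have := sq_nonneg (Z - (l + (m - l) * F - l * G))
      linarith
  have b4 : ∀ i, Bdd (fun y => X.g b (y + (1 + r i))) := fun i => (X.g_bdd b).shift _
  have b5 : Bdd (fun y => ∑ i ∈ range (n + 1), X.g b (y + (1 + r i))) :=
    bdd_sum _ (fun i y => X.g b (y + (1 + r i))) fun i _ => b4 i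
  have h3 := mean_mono ((bdd_const _).add ((b5.smul w).smul (2 * (m - l))))
    (((X.qv_bdd n r).shift 1).add (bdd_const _)) h1
  rw [mean_add (bdd_const _) ((b5.smul w).smul _), mean_const, mean_smul _ (b5.smul w),
    mean_smul _ b5, mean_add ((X.qv_bdd n r).shift 1) (bdd_const _), mean_const,
    mean_shift 1 (X.qv_bdd n r),
    mean_sum _ (fun i y => X.g b (y + (1 + r i))) fun i _ => b4 i,
    sum_congr rfl fun i _ => mean_shift (1 + r i) (X.g_bdd b), sum_const, card_range,
    nsmul_eq_mul] at h3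
  push_cast at h3
  rw [← mul_assoc w ((n : ℝ) + 1), hwn, one_mul] at h3
  unfold Fam.gm
  linarith

theorem Fam.tri' (hX : X.Bad) (β b s : ℕ) (hβ : 1 ≤ β) (hb : 1 ≤ b) (hs : 1 ≤ s) :
    0 ≤ 4 - 18 * X.D + X.K β b + X.K β s + X.K β (b + s) + X.g β b + X.g β s + X.g β (b + s)
      + 4 * X.K b s + 2 * X.δ s b + 2 * X.δ b s := by
  have h2 := X.E_mono hX (ι := Fin (β + b + s))
    (Ψ := fun U => 1 + (-1) * f U (bs 0 β) + (-1) * f U (bs 1 β))
    (Ψ' := fun U =>
      (1 + (-1) * f U (bs 0 β) + (-1) * f U (bs 1 β) + (-1) * f U (P1 0 β b s)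
        + (-1) * f U (P1 1 β b s) + f U (bs 1 β) * f U (P1 0 β b s)
        + f U (P1 1 β b s) * f U (bs 0 β))
      + (1 + (-1) * f U (bs 0 β) + (-1) * f U (bs 1 β) + (-1) * f U (P2 0 β b s)
        + (-1) * f U (P2 1 β b s) + f U (bs 1 β) * f U (P2 0 β b s)
        + f U (P2 1 β b s) * f U (bs 0 β))
      + (1 + (-1) * f U (bs 0 β) + (-1) * f U (bs 1 β) + (-1) * f U (P12 0 β b s)
        + (-1) * f U (P12 1 β b s) + f U (bs 1 β) * f U (P12 0 β b s)
        + f U (P12 1 β b s) * f U (bs 0 β))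
      + ev (f U (bs 0 β)) (f U (P1 0 β b s)) (f U (P2 0 β b s)) (f U (P12 0 β b s))
      + ev (f U (bs 1 β)) (f U (P1 1 β b s)) (f U (P2 1 β b s)) (f U (P12 1 β b s))) ?_
  · have k1 : X.E (Fin (β + b + s)) (fun U => f U (bs 1 β) * f U (P1 0 β b s)) = X.K β b := by
      refine X.pair (a := 0) (b := β) (c := β) (u := b) (by omega) (by omega)
        (Or.inl (by omega)) _ _ (LL β) (RR β) ?_ ?_ ?_
      · intro i j hi hj
        simp only [bs, LL, true_and]
        unfold sh
        split_ifs <;> omega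
      · intro i j hi hj
        simp only [P1, bs, sI, RR, zero_ne_one, false_and, false_or]
        unfold sh
        split_ifs <;> omega
      · intro i j hi hj h
        unfold P1 bs sI
        omega
    have k2 : X.E (Fin (β + b + s)) (fun U => f U (bs 1 β) * f U (P2 0 β b s)) = X.K β s := by
      refine X.pair (a := 0) (b := β) (c := β + b) (u := s) (by omega) (by omega)
        (Or.inl (by omega)) _ _ (LL β) (RR β) ?_ ?_ ?_
      · intro i j hi hj
        simp only [bs, LL, true_and]
        unfold sh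
        split_ifs <;> omega
      · intro i j hi hj
        simp only [P2, bs, sI, RR, zero_ne_one, false_and, false_or]
        unfold sh
        split_ifs <;> omega
      · intro i j hi hj h
        unfold P2 bs sI
        omega
    have k3 : X.E (Fin (β + b + s)) (fun U => f U (bs 1 β) * f U (P12 0 β b s))
        = X.K β (b + s) := by
      refine X.pair (a := 0) (b := β) (c := β) (u := b + s) (by omega) (by omega)
        (Or.inl (by omega)) _ _ (LL β) (RR β) ?_ ?_ ?_
      · intro i j hi hj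
        simp only [bs, LL, true_and]
        unfold sh
        split_ifs <;> omega
      · intro i j hi hj
        simp only [P12, bs, sI, RR, zero_ne_one, false_and, false_or]
        unfold sh
        split_ifs <;> omega
      · intro i j hi hj h
        unfold P12 bs sI
        omega
    have g1 : X.E (Fin (β + b + s)) (fun U => f U (P1 1 β b s) * f U (bs 0 β)) = X.g β b := by
      refine X.pair (a := 0) (b := β) (c := β) (u := b) (by omega) (by omega)
        (Or.inl (by omega)) _ _ (DD β) Bot ?_ ?_ ?_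
      · intro i j hi hj
        unfold P1 bs sI sh DD
        split_ifs <;> omega
      · intro i j hi hj
        simp only [Bot, iff_false]
        unfold bs
        omega
      · intro i j hi hj h
        unfold P1 bs sI
        omega
    have g2 : X.E (Fin (β + b + s)) (fun U => f U (P2 1 β b s) * f U (bs 0 β)) = X.g β s := by
      refine X.pair (a := 0) (b := β) (c := β + b) (u := s) (by omega) (by omega)
        (Or.inl (by omega)) _ _ (DD β) Bot ?_ ?_ ?_
      · intro i j hi hj
        unfold P2 bs sI sh DD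
        split_ifs <;> omega
      · intro i j hi hj
        simp only [Bot, iff_false]
        unfold bs
        omega
      · intro i j hi hj h
        unfold P2 bs sI
        omega
    have g3 : X.E (Fin (β + b + s)) (fun U => f U (P12 1 β b s) * f U (bs 0 β))
        = X.g β (b + s) := by
      refine X.pair (a := 0) (b := β) (c := β) (u := b + s) (by omega) (by omega)
        (Or.inl (by omega)) _ _ (DD β) Bot ?_ ?_ ?_
      · intro i j hi hj
        unfold P12 bs sI sh DD
        split_ifs <;> omega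
      · intro i j hi hj
        simp only [Bot, iff_false]
        unfold bs
        omega
      · intro i j hi hj h
        unfold P12 bs sI
        omega
    simp only [X.E_add, X.E_smul, X.E_const, X.E_f] at h2
    rw [k1, k2, k3, g1, g2, g3] at h2
    have e0 := X.evE hX 0 β b s hb hs
    have e1 := X.evE hX 1 β b s hb hs
    linarith
  · intro U hU
    refine stepB (f01 U _) (f01 U _) (f01 U _) (f01 U _) (f01 U _) (f01 U _) (f01 U _) (f01 U _)
      ?_ ?_ ?_ ?_ ?_ ?_ ?_ ?_ ?_ ?_
    · refine f_excl hU 0 β (by omega) (by omega) ?_ ?_ <;> intro i j <;> unfold bs <;> omega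
    · refine f_excl hU β (β + b) (by omega) (by omega) ?_ ?_ <;> intro i j <;>
        unfold bs <;> (try unfold P1 bs sI) <;> omega
    · refine f_excl hU (β + b) (β + b + s) (by omega) (by omega) ?_ ?_ <;> intro i j <;>
        unfold bs <;> (try unfold P2 bs sI) <;> omega
    · refine f_excl hU β (β + b + s) (by omega) (by omega) ?_ ?_ <;> intro i j <;>
        unfold bs <;> (try unfold P12 bs sI) <;> omega
    · refine f_excl hU β (β + b) (by omega) (by omega) ?_ ?_ <;> intro i j <;>
        unfold bs <;> (try unfold P1 bs sI) <;> omega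
    · refine f_excl hU (β + b) (β + b + s) (by omega) (by omega) ?_ ?_ <;> intro i j <;>
        unfold bs <;> (try unfold P2 bs sI) <;> omega
    · refine f_excl hU β (β + b + s) (by omega) (by omega) ?_ ?_ <;> intro i j <;>
        unfold bs <;> (try unfold P12 bs sI) <;> omega
    · refine f_excl hU 0 β (by omega) (by omega) ?_ ?_ <;> intro i j <;>
        unfold P1 bs sI <;> omega
    · refine f_excl hU 0 β (by omega) (by omega) ?_ ?_ <;> intro i j <;>
        unfold P2 bs sI <;> omega
    · refine f_excl hU 0 β (by omega) (by omega) ?_ ?_ <;> intro i j <;>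
        unfold P12 bs sI <;> omega


lemma Fam.δ_bdd (b : ℕ) : Bdd (X.δ b) := ⟨4, fun _ => X.δ_abs _ _⟩
lemma Fam.δ_bdd' (b : ℕ) : Bdd (fun s => X.δ (s + 1) b) := ⟨4, fun _ => X.δ_abs _ _⟩

noncomputable def Fam.δT (b : ℕ) : ℝ := mean (fun s => X.δ (s + 1) b)
lemma Fam.δT_bdd : Bdd X.δT := ⟨4, fun _ => mean_abs fun _ => X.δ_abs _ _⟩

lemma Fam.δm_le (hX : X.Bad) (b : ℕ) (hb : 1 ≤ b) : mean (X.δ b) ≤ 4 * (X.D - 2 * X.κ₁ b) :=
  mean_of_chain (X.δ_bdd b) fun m t ht => X.chain hX b hb m t ht

lemma Fam.δT_le (hX : X.Bad) : mean X.δT ≤ 4 * (X.D - 2 * X.κ) := by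
  refine mean_of_chain X.δT_bdd fun m t ht => ?_
  have a6' := X.κ₁_bdd.shift 1
  have h1 : ∀ s, ∑ j ∈ range (m + 1), ∑ i ∈ range j, X.δ (s + 1) (t j - t i)
      ≤ ((m : ℝ) + 1) ^ 2 * (2 * (X.D + (-2) * X.κ₁ (s + 1))) := by
    intro s
    have := X.chain hX (s + 1) (by omega) m t ht
    refine this.trans (le_of_eq ?_)
    ring
  have b1 : ∀ j i, Bdd (fun s => X.δ (s + 1) (t j - t i)) := fun j i => X.δ_bdd' _
  have b2 : ∀ j, Bdd (fun s => ∑ i ∈ range j, X.δ (s + 1) (t j - t i)) := fun j =>
    bdd_sum _ (fun i s => X.δ (s + 1) (t j - t i)) fun i _ => b1 j i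
  have b3 : Bdd (fun s => ∑ j ∈ range (m + 1), ∑ i ∈ range j, X.δ (s + 1) (t j - t i)) :=
    bdd_sum _ (fun j s => ∑ i ∈ range j, X.δ (s + 1) (t j - t i)) fun j _ => b2 j
  have b4 := (bdd_const X.D).add (a6'.smul (-2))
  have h2 := mean_mono b3 ((b4.smul 2).smul (((m : ℝ) + 1) ^ 2)) h1
  rw [mean_smul _ (b4.smul 2), mean_smul _ b4, mean_add (bdd_const _) (a6'.smul (-2)), mean_const,
    mean_smul _ a6', mean_shift 1 X.κ₁_bdd,
    mean_sum _ (fun j s => ∑ i ∈ range j, X.δ (s + 1) (t j - t i)) fun j _ => b2 j] at h2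
  have h3 : ∑ j ∈ range (m + 1), mean (fun s => ∑ i ∈ range j, X.δ (s + 1) (t j - t i))
      = ∑ j ∈ range (m + 1), ∑ i ∈ range j, X.δT (t j - t i) := by
    refine sum_congr rfl fun j _ => ?_
    rw [mean_sum _ (fun i s => X.δ (s + 1) (t j - t i)) fun i _ => b1 j i]
    rfl
  rw [h3] at h2
  refine h2.trans (le_of_eq ?_)
  unfold Fam.κ
  ring

theorem Fam.mean1' (hX : X.Bad) (β b : ℕ) (hβ : 1 ≤ β) (hb : 1 ≤ b) :
    0 ≤ 4 - 18 * X.D + X.K β b + X.g β b + 2 * X.Km β + 2 * X.gm β + 4 * X.Km b
      + 2 * X.δT b + 8 * (X.D - 2 * X.κ₁ b) := by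
  have h1 : ∀ s, 0 ≤ (4 - 18 * X.D + X.K β b + X.g β b) + (X.K β (s + 1)
      + (X.K β (s + (b + 1)) + (X.g β (s + 1) + (X.g β (s + (b + 1)) + (4 * X.K b (s + 1)
      + (2 * X.δ (s + 1) b + 2 * X.δ b (s + 1))))))) := by
    intro s
    have h := X.tri' hX β b (s + 1) hβ hb (by omega)
    have e : b + (s + 1) = s + (b + 1) := by omega
    rw [e] at h
    linarith
  have a1 := (X.K_bdd β).shift 1
  have a2 := (X.K_bdd β).shift (b + 1)
  have a3 := (X.g_bdd β).shift 1
  have a4 := (X.g_bdd β).shift (b + 1)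
  have a5' := (X.K_bdd b).shift 1
  have a5 := a5'.smul 4
  have a6' := X.δ_bdd' b
  have a6 := a6'.smul 2
  have a7' := (X.δ_bdd b).shift 1
  have a7 := a7'.smul 2
  have h2 := mean_mono (bdd_const 0) ((bdd_const _).add (a1.add (a2.add (a3.add (a4.add
    (a5.add (a6.add a7))))))) h1
  rw [mean_const, mean_add (bdd_const _) (a1.add (a2.add (a3.add (a4.add (a5.add (a6.add a7)))))),
    mean_const, mean_add a1 (a2.add (a3.add (a4.add (a5.add (a6.add a7))))),
    mean_add a2 (a3.add (a4.add (a5.add (a6.add a7)))),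
    mean_add a3 (a4.add (a5.add (a6.add a7))),
    mean_add a4 (a5.add (a6.add a7)), mean_add a5 (a6.add a7), mean_add a6 a7, mean_smul _ a5',
    mean_smul _ a6', mean_smul _ a7',
    mean_shift 1 (X.K_bdd β), mean_shift (b + 1) (X.K_bdd β), mean_shift 1 (X.g_bdd β),
    mean_shift (b + 1) (X.g_bdd β), mean_shift 1 (X.K_bdd b), mean_shift 1 (X.δ_bdd b)] at h2
  have e1 : mean (X.K β) = X.Km β := rfl
  have e2 : mean (X.g β) = X.gm β := rfl
  have e3 : mean (X.K b) = X.Km b := rfl
  have e4 : mean (fun s => X.δ (s + 1) b) = X.δT b := rfl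
  rw [e1, e2, e3, e4] at h2
  have h3 := X.δm_le hX b hb
  linarith

theorem Fam.mean2' (hX : X.Bad) (β : ℕ) (hβ : 1 ≤ β) :
    0 ≤ 4 - 2 * X.D + 3 * X.Km β + 3 * X.gm β + 4 * mean X.Km - 32 * X.κ := by
  have h1 : ∀ b, 0 ≤ (4 - 10 * X.D + 2 * X.Km β + 2 * X.gm β) + (X.K β (b + 1)
      + (X.g β (b + 1) + (4 * X.Km (b + 1) + (2 * X.δT (b + 1) + (-16) * X.κ₁ (b + 1))))) := by
    intro b
    have h := X.mean1' hX β (b + 1) hβ (by omega)
    linarith
  have a1 := (X.K_bdd β).shift 1
  have a3 := (X.g_bdd β).shift 1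
  have a5' := X.Km_bdd.shift 1
  have a5 := a5'.smul 4
  have a6' := X.δT_bdd.shift 1
  have a6 := a6'.smul 2
  have a7' := X.κ₁_bdd.shift 1
  have a7 := a7'.smul (-16)
  have h2 := mean_mono (bdd_const 0) ((bdd_const _).add (a1.add (a3.add (a5.add (a6.add a7))))) h1
  rw [mean_const, mean_add (bdd_const _) (a1.add (a3.add (a5.add (a6.add a7)))),
    mean_const, mean_add a1 (a3.add (a5.add (a6.add a7))), mean_add a3 (a5.add (a6.add a7)),
    mean_add a5 (a6.add a7), mean_add a6 a7, mean_smul _ a5', mean_smul _ a6', mean_smul _ a7',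
    mean_shift 1 (X.K_bdd β), mean_shift 1 (X.g_bdd β), mean_shift 1 X.Km_bdd,
    mean_shift 1 X.δT_bdd, mean_shift 1 X.κ₁_bdd] at h2
  have e1 : mean (X.K β) = X.Km β := rfl
  have e2 : mean (X.g β) = X.gm β := rfl
  have e3 : mean X.κ₁ = X.κ := rfl
  rw [e1, e2, e3] at h2
  have h3 := X.δT_le hX
  linarith

/-- the limit density of families without a planted pair -/
theorem Fam.main' (hX : X.Bad) : X.D ≤ 3625 / 11249 := by
  have h1 : ∀ β, 0 ≤ (4 - 2 * X.D + (25 * X.κ + 81 / 16 - 10449 / 400 * X.D) + 4 * mean X.Km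
      - 32 * X.κ) + 3 * X.Km (β + 1) := by
    intro β
    have h := X.mean2' hX (β + 1) (by omega)
    have h' := X.item3g hX (9 / 20) (51 / 100) (β + 1) (by omega)
    linarith
  have a1' := X.Km_bdd.shift 1
  have a1 := a1'.smul 3
  have h2 := mean_mono (bdd_const 0) ((bdd_const _).add a1) h1
  rw [mean_const, mean_add (bdd_const _) a1, mean_const, mean_smul _ a1',
    mean_shift 1 X.Km_bdd] at h2
  have h3 := X.item2 hX
  linarith

end Pool.Agent.TH635.BV
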