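import Mathlib
import Pool.Agent.TH635.BV.Main2
import Pool.Agent.TH635.PH.Thr

set_option autoImplicit false

/-!
# The density statement for subsets of `[N]^2` above density `0.3223`
-/

namespace Pool.Agent.TH635.BV

open Finset Filter Topology Pool.Agent.TH7.DH Pool.Agent.TH635.PH.Thr

lemma adm_of_not_good {N : ℕ} {S : Finset (Finset (Fin 2 → Fin N))} (hS : ¬ Good S) {ι : Type}
    [Fintype ι] (φ : ι ↪ Fin N) (A : Finset (Fin 2 → Fin N)) :
    Adm (fun P => ow φ P A ∈ S) := by
  classical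
  intro P γ hγ hP
  rintro ⟨h0, h1⟩
  refine hS ⟨_, h0, γ.map φ, hγ.map, ?_, ?_⟩
  · rw [Finset.disjoint_left]
    intro c hc hc'
    rw [mem_ow] at hc
    rw [cube, Fintype.mem_piFinset] at hc'
    have : ∀ t, ∃ x, x ∈ γ ∧ φ x = c t := fun t => by
      have := hc' t
      rw [Finset.mem_map] at this
      exact this
    choose e he he' using this
    rcases hc with ⟨e₁, he₁, hP₁⟩ | ⟨hne, -⟩
    · have h2 : e₁ = e := funext fun t => φ.injective ((congrFun he₁ t).trans (he' t).symm)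
      rw [h2] at hP₁
      exact hP e he hP₁
    · exact hne ⟨e, funext he'⟩
  · have h2 : ow φ P A ∪ cube 2 (γ.map φ) = ow φ (fun c => P c ∨ ∀ t, c t ∈ γ) A := by
      ext c
      have h3 : c ∈ cube 2 (γ.map φ) ↔ ∃ e : Fin 2 → ι, (fun t => φ (e t)) = c ∧ ∀ t, e t ∈ γ := by
        rw [cube, Fintype.mem_piFinset]
        constructor
        · intro hc
          have : ∀ t, ∃ x, x ∈ γ ∧ φ x = c t := fun t => by
            have := hc t
            rw [Finset.mem_map] at this
            exact this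
          choose e he he' using this
          exact ⟨e, funext he', he⟩
        · rintro ⟨e, rfl, he⟩ t
          exact mem_map_of_mem _ (he t)
      rw [mem_union, mem_ow, mem_ow, h3]
      by_cases hc : ∃ e : Fin 2 → ι, (fun t => φ (e t)) = c
      · simp only [hc, not_true, false_and, or_false]
        constructor
        · rintro (⟨e, he, h⟩ | ⟨e, he, h⟩)
          · exact ⟨e, he, Or.inl h⟩
          · exact ⟨e, he, Or.inr h⟩
        · rintro ⟨e, he, h | h⟩
          · exact Or.inl ⟨e, he, h⟩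
          · exact Or.inr ⟨e, he, h⟩
      · have h4 : ∀ R : (Fin 2 → ι) → Prop, ¬ ∃ e : Fin 2 → ι, (fun t => φ (e t)) = c ∧ R e :=
          fun R ⟨e, he, _⟩ => hc ⟨e, he⟩
        simp only [hc, h4 P, h4 (fun c => P c ∨ ∀ t, c t ∈ γ), h4 (fun e => ∀ t, e t ∈ γ),
          not_false_iff, true_and, false_or, or_false]
    rw [h2]
    exact h1

/-- The restricted density polynomial Hales-Jewett statement for `d = 2` and densities above
`0.3223`. -/
theorem thr2 : ∀ δ : ℝ, (3223 : ℝ) / 10000 < δ →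
    ∃ N₀ : ℕ, ∀ N : ℕ, N₀ ≤ N → ∀ S : Finset (Finset (Fin 2 → Fin N)),
      δ * (2 : ℝ) ^ (N ^ 2) < S.card → Good S := by
  classical
  intro δ hδ
  by_contra hcon
  push Not at hcon
  set B : Set ℕ := {N | ∃ S : Finset (Finset (Fin 2 → Fin N)),
    δ * (2 : ℝ) ^ (N ^ 2) < S.card ∧ ¬ Good S} with hB
  have hfreq : ∃ᶠ N in (atTop : Filter ℕ), N ∈ B := by
    rw [frequently_atTop]
    intro N₀
    obtain ⟨N, hN, S, hS, hg⟩ := hcon N₀
    exact ⟨N, hN, S, hS, hg⟩
  have hne : NeBot ((atTop : Filter ℕ) ⊓ 𝓟 B) := frequently_mem_iff_neBot.1 hfreq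
  set V : Ultrafilter ℕ := Ultrafilter.of ((atTop : Filter ℕ) ⊓ 𝓟 B) with hVdef
  have hVle : (V : Filter ℕ) ≤ (atTop : Filter ℕ) ⊓ 𝓟 B := Ultrafilter.of_le _
  have hV1 : (V : Filter ℕ) ≤ atTop := hVle.trans inf_le_left
  have hV2 : B ∈ (V : Filter ℕ) := hVle (mem_inf_of_right (mem_principal_self B))
  have hch : ∀ N : ℕ, ∃ S : Finset (Finset (Fin 2 → Fin N)), ¬ Good S ∧
      (N ∈ B → δ * (2 : ℝ) ^ (N ^ 2) < S.card) := by
    intro N
    by_cases hN : N ∈ B
    · obtain ⟨S, hS, hg⟩ := hN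
      exact ⟨S, hg, fun _ => hS⟩
    · refine ⟨∅, ?_, fun h => (hN h).elim⟩
      rintro ⟨A, hA, -⟩
      exact absurd hA (notMem_empty _)
  choose S hSg hSd using hch
  let X : Fam := ⟨V, hV1, S⟩
  have hX : X.Bad := fun N ι _ φ A => adm_of_not_good (hSg N) φ A
  have hD : Tendsto (fun N => LN N (S N) (Fin 0) (fun U => f U (fun _ _ => True))) V (𝓝 X.D) :=
    X.tendsto (Fin 0) (fun U => f U (fun _ _ => True))
  have hval : ∀ N, LN N (S N) (Fin 0) (fun U => f U (fun _ _ => True))
      = av (fun A => ind (S N) A) := by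
    intro N
    unfold LN
    have h3 : ∀ φ : Fin 0 ↪ Fin N, av (fun A => f (fun P => ow φ P A ∈ S N) (fun _ _ => True))
        = av (fun A => ind (S N) A) := by
      intro φ
      congr 1
      funext A
      have h5 : ow φ (pt 0 fun _ _ => True) A = A := ow_empty (by norm_num) φ _ A
      have h7 : (fun P => ow φ P A ∈ S N) (pt 0 fun _ _ => True) ↔ A ∈ S N := by
        change (ow φ (pt 0 fun _ _ => True) A ∈ S N) ↔ _
        rw [h5]
      unfold f ind
      by_cases h6 : A ∈ S N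
      · rw [if_pos (h7.2 h6), if_pos h6]
      · rw [if_neg (fun h => h6 (h7.1 h)), if_neg h6]
    simp only [h3]
    have : Nonempty (Fin 0 ↪ Fin N) := ⟨⟨Fin.elim0, fun x => x.elim0⟩⟩
    rw [av_const]
  have hDδ : δ ≤ X.D := by
    refine ge_of_tendsto hD ?_
    filter_upwards [hV2] with N hN
    rw [hval, av_ind]
    have h1 : ((Fintype.card (Finset (Fin 2 → Fin N)) : ℕ) : ℝ) = 2 ^ (N ^ 2) := by
      rw [Fintype.card_finset]
      simp
    rw [h1, le_div_iff₀ (by positivity)]
    exact (hSd N hN).le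
  have := X.main' hX
  linarith

end Pool.Agent.TH635.BV
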